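import Mathlib
import Pool.Agent.H482.QO.Q4

/-! Units of the fields of different primes are independent. -/

set_option autoImplicit false

namespace Pool.Agent.H482.QP

open Finset

open Pool.Agent.H482.QO

theorem IndU_primes : ∀ {k : ℕ} (b y d : Fin k → ℕ), (∀ i, 1 ≤ b i) →
    (∀ i, (b i) ^ 2 + 4 = d i * (y i) ^ 2) → (∀ i, (d i).Prime) → Function.Injective d → IndU b := by
  intro k
  induction k with
  | zero =>
    intro b y d _ _ _ _ c _ i
    exact Fin.elim0 i
  | succ k ih =>
    intro b y d h1 hd hp hinj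
    have hb : IndU (fun i : Fin k => b i.succ) :=
      ih (fun i => b i.succ) (fun i => y i.succ) (fun i => d i.succ) (fun i => h1 _) (fun i => hd _)
        (fun i => hp _) (fun i j hij => Fin.succ_injective _ (hinj hij))
    have hl : (d 0).Prime := hp 0
    have hfact : Fact (d 0).Prime := ⟨hl⟩
    have hy1 : ∀ i, 1 ≤ y i := by
      intro i
      by_contra h
      have h0 : y i = 0 := by omega
      have h2 := hd i
      rw [h0] at h2
      simp at h2
    intro c hc
    obtain ⟨W, hW⟩ : ∃ W : List ℕ, W = List.ofFn (fun i : Fin k => d i.succ) := ⟨_, rfl⟩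
    have hF := isFl W
    have hsq : ∀ i, √(((b i) ^ 2 + 4 : ℕ) : ℝ) = (y i : ℝ) * √((d i : ℕ) : ℝ) := by
      intro i
      rw [hd i]
      push_cast
      rw [Real.sqrt_mul (Nat.cast_nonneg _), Real.sqrt_sq (Nat.cast_nonneg _), mul_comm]
    have heps : ∀ i : Fin k, eps (b i.succ) ∈ Fl W := by
      intro i
      have h2 : √((d i.succ : ℕ) : ℝ) ∈ Fl W := by
        apply sqrt_mem
        rw [hW, List.mem_ofFn]
        exact ⟨i, rfl⟩
      have h3 : eps (b i.succ) = ((1 / 2 : ℚ) : ℝ) * (((b i.succ : ℚ) : ℝ) +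
          ((y i.succ : ℚ) : ℝ) * √((d i.succ : ℕ) : ℝ)) := by
        unfold eps
        have h4 := hsq i.succ
        push_cast at h4 ⊢
        rw [h4]
        ring
      rw [h3]
      exact hF.mul _ (hF.rat _) _ (hF.add _ (hF.rat _) _ (hF.mul _ (hF.rat _) _ h2))
    rw [Fin.prod_univ_succ] at hc
    have hc0 : c 0 = 0 := by
      by_contra hne
      have h2 : eps (b 0) ^ (c 0) ∈ Fl W := by
        have h3 : ∏ i : Fin k, eps (b i.succ) ^ (c i.succ) ∈ Fl W :=
          hF.prod _ _ fun i _ => hF.zpow _ (heps i) _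
        rw [eq_inv_of_mul_eq_one_left hc]
        exact hF.inv _ h3
      have h3 : eps (b 0) ^ (c 0).natAbs ∈ Fl W := by
        rcases Int.natAbs_eq (c 0) with h | h
        · rw [h, zpow_natCast] at h2
          exact h2
        · rw [h, zpow_neg, zpow_natCast] at h2
          have := hF.inv _ h2
          rwa [inv_inv] at this
      obtain ⟨n, hn⟩ : ∃ n, (c 0).natAbs = n + 1 := ⟨(c 0).natAbs - 1, by omega⟩
      rw [hn, pow_lu (b 0) _ (eps_sq (b 0)) n] at h3
      have hlu : (1 : ℝ) ≤ lu (b 0) (n + 1) := by exact_mod_cast lu_pos (b 0) (h1 0) n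
      have h4 : eps (b 0) ∈ Fl W := by
        have h5 := hF.mul _ (hF.sub _ _ h3 (hF.rat (lu (b 0) n))) _
          (hF.inv _ (hF.rat (lu (b 0) (n + 1))))
        convert h5 using 1
        push_cast
        field_simp
        ring
      have h5 : √((d 0 : ℕ) : ℝ) ∈ Fl W := by
        have h6 := hF.mul _ (hF.sub _ _ (hF.mul _ (hF.rat 2) _ h4) (hF.rat (b 0))) _
          (hF.inv _ (hF.rat (y 0)))
        convert h6 using 1
        unfold eps
        have h7 := hsq 0
        have h8 : (1 : ℝ) ≤ y 0 := by exact_mod_cast hy1 0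
        push_cast at h7 ⊢
        rw [h7]
        field_simp
        ring
      obtain ⟨l', hl', w, hw⟩ := kummer W ((d 0 : ℕ) : ℚ) ⟨_, h5, by
        rw [Real.sq_sqrt (Nat.cast_nonneg _)]
        push_cast
        rfl⟩
      have hprod : ¬ d 0 ∣ l'.prod := by
        intro h
        obtain ⟨D, hD, hlD⟩ := (Prime.dvd_prod_iff hl.prime).1 h
        have h6 := hl'.subset hD
        rw [hW, List.mem_ofFn] at h6
        obtain ⟨i, rfl⟩ := h6
        have h7 := (Nat.prime_dvd_prime_iff_eq hl (hp i.succ)).1 hlD
        exact absurd (hinj h7) (Fin.succ_ne_zero i).symm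
      have hp0 : l'.prod ≠ 0 := by
        intro h
        rw [h] at hprod
        exact hprod (dvd_zero _)
      have hw0 : w ≠ 0 := by
        rintro rfl
        rw [zero_pow two_ne_zero] at hw
        rcases mul_eq_zero.1 hw with h | h
        · have h6 : d 0 = 0 := by exact_mod_cast h
          exact hl.ne_zero h6
        · exact hp0 (by exact_mod_cast h)
      have h6 := congrArg (padicValRat (d 0)) hw
      have hd0 : ((d 0 : ℕ) : ℚ) ≠ 0 := by exact_mod_cast hl.ne_zero
      rw [padicValRat.mul hd0 (by exact_mod_cast hp0), padicValRat.of_nat,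
        padicValRat.of_nat, padicValRat.pow, padicValNat.eq_zero_of_not_dvd hprod,
        padicValNat_self] at h6
      push_cast at h6
      omega
    have h6 : ∏ i : Fin k, eps (b i.succ) ^ (c i.succ) = 1 := by
      rw [hc0, zpow_zero, one_mul] at hc
      exact hc
    have h7 := hb (fun i => c i.succ) h6
    intro i
    refine Fin.cases ?_ (fun j => ?_) i
    · exact hc0
    · exact h7 j

end Pool.Agent.H482.QP
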