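import Mathlib
import Pool.Agent.H482.QO.Q4
import Pool.Graph.R_seed8.Helper112.LS

/-!
Project QP (helper482): orders of prime conductor of polynomial size in real quadratic fields.
Statements of the tasks.
-/

set_option autoImplicit false

namespace Pool.Agent.H482.QP

open Finset

open Pool.Agent.H482.QO (IndU lu Exq)

/-- task PLA: a nontrivial solution of the Pell equation of bounded size -/
def S_PLA : Prop := ∃ C : ℕ, ∀ d : ℕ, ¬ IsSquare d →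
  ∃ u v : ℕ, 1 ≤ v ∧ u ^ 2 = d * v ^ 2 + 1 ∧ u ≤ 2 ^ (C * d ^ 3)

/-- task PLB: norm `-1` for the primes `1` modulo `4` -/
def S_PLB : Prop := ∀ q : ℕ, q.Prime → q % 4 = 1 → ∀ u v : ℕ, 1 ≤ v → u ^ 2 = q * v ^ 2 + 1 →
  ∃ t y : ℕ, 1 ≤ t ∧ t ^ 2 + 4 = q * y ^ 2 ∧ t ≤ 2 * u

/-- task UNI: few primes modulo which independent units generate a small group, explicitly -/
def S_UNI : Prop := ∀ (ι : Type) [Fintype ι] (t : ι → ℕ), IndU t → ∀ B : ℕ,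
  (∀ i, t i + 1 ≤ 2 ^ B) → ∀ (A : ℕ) (T : Finset ℕ), 1 ≤ A → (∀ p ∈ T, p.Prime ∧ ∃ k : ℕ, 0 < k ∧
      k < A ^ Fintype.card ι ∧ ∀ (F : Type) [Field F] [CharP F p] (e : F) (i : ι),
        e ^ 2 = t i * e + 1 → e ^ k = 1) →
    T.card ≤ (2 * A + 1) ^ Fintype.card ι *
      (2 ^ Fintype.card ι * (1 + Fintype.card ι * B) * A)

/-- task EXQ: the exceptional primes, explicitly -/
def S_EXQ : Prop := ∀ (ι : Type) [Fintype ι] (t : ι → ℕ), IndU t → ∀ B : ℕ,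
  (∀ i, t i + 1 ≤ 2 ^ B) → ∀ r : ℕ, 2 ≤ r → ∀ x : ℕ, 1 ≤ x →
    ((Exq x r t).card : ℝ) ≤ (Fintype.card ι : ℝ) ^ r * (5 * 11 ^ r *
      (2 ^ r * (1 + r * (B : ℝ)))) * (x : ℝ) ^ (1 - 1 / (r : ℝ))

/-- the reduced residues modulo `f` are as in project AP; Montgomery's inequality for one prime and
two classes -/
def S_MONG : Prop := ∀ (p N c₁ c₂ : ℕ) (b : ℕ → ℂ), p.Prime → 3 ≤ p → c₁ < p → c₂ < p → c₁ ≠ c₂ →
  (∀ n ∈ Icc 1 N, (n % p = c₁ ∨ n % p = c₂) → b n = 0) →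
  2 / ((p : ℝ) - 2) * ‖∑ n ∈ Icc 1 N, b n‖ ^ 2 ≤
    ∑ a ∈ (range p).filter (fun a => a.Coprime p),
      ‖∑ n ∈ Icc 1 N, b n * Pool.Agent.Helper112.ee (n * a / p)‖ ^ 2

end Pool.Agent.H482.QP
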