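import Mathlib
import Pool.Agent.H482.QP.Stm
import Pool.Agent.H482.QP.Idp
import Pool.Agent.H482.QO.Q5

/-! The units which have a small order modulo many primes. -/

set_option autoImplicit false

namespace Pool.Agent.H482.QP

open Finset

open Pool.Agent.Y855 (OP mem_OP)
open Pool.Agent.H482.QO

/-- the primes `p ≤ x`, `p ≡ 19 mod 24`, such that `p + 1` has no odd prime factor up to `z` -/
def Tp (x z : ℕ) : Finset ℕ := NSp x 24 19 (OP z)

theorem mem_Tp {x z p : ℕ} : p ∈ Tp x z ↔ (1 ≤ p ∧ p ≤ x) ∧ p.Prime ∧ p % 24 = 19 ∧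
    ∀ l ∈ OP z, ¬ l ∣ p + 1 := by
  unfold Tp NSp
  rw [mem_filter, mem_Icc]
  rfl

open Classical in
/-- the primes for which the unit with trace `t` has a small order -/
noncomputable def BadP (x z t : ℕ) : Finset ℕ :=
  (Tp x z).filter (fun p => ∃ l ∈ LFp z p, 3 ≤ l ∧ p ∣ lu t ((p + 1) / l))

theorem bad_sum {ι : Type} [Fintype ι] (t : ι → ℕ) (x z r L : ℕ) (hx : 2 ≤ x) (hz : 2 ≤ z)
    (hL : 2 * (Real.log x / Real.log z) ≤ L) (hr : x ^ 2 ≤ z ^ r) :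
    ∑ i, (BadP x z (t i)).card ≤
      r * L * (Tp x z).card + Fintype.card ι * (Exq x r t).card := by
  classical
  have h1 : ∑ i, (BadP x z (t i)).card = ∑ p ∈ Tp x z, (univ.filter (fun i : ι =>
      ∃ l ∈ LFp z p, 3 ≤ l ∧ p ∣ lu (t i) ((p + 1) / l))).card := by
    have h2 : ∀ i : ι, (BadP x z (t i)).card = ∑ p ∈ Tp x z,
        if (∃ l ∈ LFp z p, 3 ≤ l ∧ p ∣ lu (t i) ((p + 1) / l)) then 1 else 0 := by
      intro i
      unfold BadP
      rw [card_filter]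
    rw [sum_congr rfl (fun i _ => h2 i), sum_comm]
    apply sum_congr rfl
    intro p _
    rw [card_filter]
  rw [h1]
  have h2 : ∀ p ∈ Tp x z, (univ.filter (fun i : ι =>
      ∃ l ∈ LFp z p, 3 ≤ l ∧ p ∣ lu (t i) ((p + 1) / l))).card ≤
      r * L + (if p ∈ Exq x r t then Fintype.card ι else 0) := by
    intro p hp
    obtain ⟨⟨hp1, hpx⟩, hpp, hp24, hpz⟩ := mem_Tp.1 hp
    by_cases hE : p ∈ Exq x r t
    · rw [if_pos hE]
      have h3 : (univ.filter (fun i : ι =>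
        ∃ l ∈ LFp z p, 3 ≤ l ∧ p ∣ lu (t i) ((p + 1) / l))).card ≤ Fintype.card ι := card_le_univ _
      omega
    · rw [if_neg hE, add_zero]
      have hsub : univ.filter (fun i : ι => ∃ l ∈ LFp z p, 3 ≤ l ∧ p ∣ lu (t i) ((p + 1) / l)) ⊆
          (LFp z p).biUnion (fun l => univ.filter (fun i : ι =>
            3 ≤ l ∧ p ∣ lu (t i) ((p + 1) / l))) := by
        intro i hi
        rw [mem_filter] at hi
        obtain ⟨-, l, hl, h3, h4⟩ := hi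
        rw [mem_biUnion]
        exact ⟨l, hl, mem_filter.2 ⟨mem_univ _, h3, h4⟩⟩
      have hl : ∀ l ∈ LFp z p, (univ.filter (fun i : ι =>
          3 ≤ l ∧ p ∣ lu (t i) ((p + 1) / l))).card ≤ r := by
        intro l hl
        by_contra hcon
        push Not at hcon
        have hl' := hl
        unfold LFp at hl'
        rw [mem_filter, Nat.mem_primeFactors] at hl'
        obtain ⟨⟨hl0p, hl0d, -⟩, hl0z⟩ := hl'
        have hl3 : 3 ≤ l := by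
          obtain ⟨i, hi⟩ : (univ.filter (fun i : ι =>
              3 ≤ l ∧ p ∣ lu (t i) ((p + 1) / l))).Nonempty := by
            rw [← card_pos]
            omega
          exact (mem_filter.1 hi).2.1
        apply hE
        unfold Exq
        rw [mem_filter, mem_Icc]
        refine ⟨⟨hp1, hpx⟩, hpp, by omega, l, hl0p, hl3, hl0d, ?_, univ.filter (fun i : ι =>
          3 ≤ l ∧ p ∣ lu (t i) ((p + 1) / l)), hcon.le, fun i hi => (mem_filter.1 hi).2.2⟩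
        exact hr.trans (Nat.pow_le_pow_left hl0z.le r)
      have hLF : (LFp z p).card ≤ L := by
        have h3 := LFp_card x z p hz hx hpx
        exact_mod_cast h3.trans hL
      calc (univ.filter (fun i : ι =>
            ∃ l ∈ LFp z p, 3 ≤ l ∧ p ∣ lu (t i) ((p + 1) / l))).card
          ≤ ∑ l ∈ LFp z p, (univ.filter (fun i : ι =>
            3 ≤ l ∧ p ∣ lu (t i) ((p + 1) / l))).card := (card_le_card hsub).trans card_biUnion_le
        _ ≤ ∑ _l ∈ LFp z p, r := sum_le_sum hl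
        _ = (LFp z p).card * r := by rw [sum_const, smul_eq_mul]
        _ ≤ L * r := Nat.mul_le_mul_right r hLF
        _ = r * L := mul_comm _ _
  refine (sum_le_sum h2).trans ?_
  rw [sum_add_distrib, sum_const, smul_eq_mul, ← sum_filter, sum_const, smul_eq_mul,
    mul_comm ((Tp x z).card)]
  apply Nat.add_le_add_left
  rw [mul_comm]
  apply Nat.mul_le_mul_left
  apply card_le_card
  intro p hp
  exact (mem_filter.1 hp).2

open Filter in
/-- numerical facts -/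
theorem num_exq (M r : ℕ) (hr : 2 ≤ r) (c : ℝ) (hc : 0 < c) : ∃ X : ℕ, ∀ x : ℕ, X ≤ x →
    ∀ B : ℝ, 0 ≤ B → B ≤ (x : ℝ) ^ (1 / (2 * (r : ℝ))) →
      (M : ℝ) * ((M : ℝ) ^ r * (5 * 11 ^ r * (2 ^ r * (1 + r * B))) * (x : ℝ) ^ (1 - 1 / (r : ℝ))) ≤
        c * (x / (Real.log x) ^ 2) := by
  have hr0 : (0 : ℝ) < r := by exact_mod_cast (by omega : 0 < r)
  obtain ⟨D, hD⟩ : ∃ D : ℝ, D = (M : ℝ) * ((M : ℝ) ^ r * (5 * 11 ^ r * (2 ^ r * (1 + r)))) := ⟨_, rfl⟩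
  have hD0 : 0 ≤ D := by rw [hD]; positivity
  have h1 := Pool.Agent.H482.RG.ev_saving 0 D c le_rfl hD0 hc (2 * r) (by omega)
  obtain ⟨X, hX⟩ := eventually_atTop.1 (h1.and (eventually_ge_atTop 1))
  refine ⟨X, fun x hx B hB0 hB => ?_⟩
  obtain ⟨h2, h3⟩ := hX x hx
  have hx1 : (1 : ℝ) ≤ x := by exact_mod_cast h3
  have hx0 : (0 : ℝ) < x := by linarith
  rw [zero_add] at h2
  refine le_trans ?_ h2
  have h4 : 1 + r * B ≤ (1 + r) * (x : ℝ) ^ (1 / (2 * (r : ℝ))) := by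
    have h5 : (1 : ℝ) ≤ (x : ℝ) ^ (1 / (2 * (r : ℝ))) := Real.one_le_rpow hx1 (by positivity)
    have h6 : r * B ≤ r * (x : ℝ) ^ (1 / (2 * (r : ℝ))) := mul_le_mul_of_nonneg_left hB hr0.le
    linarith
  have h7 : (x : ℝ) ^ (1 - 1 / ((2 * r : ℕ) : ℝ)) =
      (x : ℝ) ^ (1 / (2 * (r : ℝ))) * (x : ℝ) ^ (1 - 1 / (r : ℝ)) := by
    rw [← Real.rpow_add hx0]
    congr 1
    push_cast
    field_simp
    ring
  rw [h7, hD]
  calc (M : ℝ) * ((M : ℝ) ^ r * (5 * 11 ^ r * (2 ^ r * (1 + r * B))) * (x : ℝ) ^ (1 - 1 / (r : ℝ)))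
      ≤ (M : ℝ) * ((M : ℝ) ^ r * (5 * 11 ^ r * (2 ^ r * ((1 + r) *
        (x : ℝ) ^ (1 / (2 * (r : ℝ)))))) * (x : ℝ) ^ (1 - 1 / (r : ℝ))) := by gcongr
    _ = _ := by ring

/-- the units which are often of small order -/
theorem few_BP (hE : S_EXQ) (r L : ℕ) (hr : 2 ≤ r) (η c : ℝ) (hη : 0 < η) (hc : 0 < c) :
    ∃ m₀ x₀ : ℕ, ∀ x : ℕ, x₀ ≤ x → ∀ z : ℕ, 2 ≤ z → 2 * (Real.log x / Real.log z) ≤ L →
    x ^ 2 ≤ z ^ r → c * (x / (Real.log x) ^ 2) ≤ ((Tp x z).card : ℝ) → 0 < ((Tp x z).card : ℝ) →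
    ∀ (t y : ℕ → ℕ) (B : ℕ), (B : ℝ) ≤ (x : ℝ) ^ (1 / (2 * (r : ℝ))) →
    ∀ S : Finset ℕ, (∀ q ∈ S, q.Prime ∧ 1 ≤ t q ∧ (t q) ^ 2 + 4 = q * (y q) ^ 2 ∧
      t q + 1 ≤ 2 ^ B ∧ η * ((Tp x z).card : ℝ) < ((BadP x z (t q)).card : ℝ)) → S.card < m₀ := by
  classical
  obtain ⟨m₀, hm₀⟩ : ∃ m₀ : ℕ, m₀ = ⌈((r : ℝ) * L + 1) / η⌉₊ + 1 := ⟨_, rfl⟩
  obtain ⟨X, hX⟩ := num_exq m₀ r hr c hc
  refine ⟨m₀, max X 2, fun x hx z hz hL hrz hT hT0 t y B hB S hS => ?_⟩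
  have hxX : X ≤ x := (le_max_left _ _).trans hx
  have hx2 : 2 ≤ x := (le_max_right _ _).trans hx
  by_contra hcon
  push Not at hcon
  obtain ⟨F, hF, hFc⟩ := exists_subset_card_eq hcon
  obtain ⟨e⟩ : Nonempty (Fin m₀ ≃ F) := ⟨(Finset.equivFinOfCardEq hFc).symm⟩
  have hFp : ∀ i, ((e i : F) : ℕ) ∈ S := fun i => hF (e i).2
  have hInd : IndU (fun i : Fin m₀ => t ((e i : F) : ℕ)) :=
    IndU_primes (fun i => t ((e i : F) : ℕ)) (fun i => y ((e i : F) : ℕ)) (fun i => ((e i : F) : ℕ))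
      (fun i => (hS _ (hFp i)).2.1) (fun i => (hS _ (hFp i)).2.2.1) (fun i => (hS _ (hFp i)).1)
      (fun i j hij => e.injective (Subtype.ext hij))
  have h1 := bad_sum (fun i : Fin m₀ => t ((e i : F) : ℕ)) x z r L hx2 hz hL hrz
  rw [Fintype.card_fin] at h1
  have h2 := hE (Fin m₀) (fun i => t ((e i : F) : ℕ)) hInd B (fun i => (hS _ (hFp i)).2.2.2.1) r hr x
    (by omega)
  rw [Fintype.card_fin] at h2
  have h3 := hX x hxX B (Nat.cast_nonneg _) hB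
  have h4 : (m₀ : ℝ) * ((Exq x r (fun i : Fin m₀ => t ((e i : F) : ℕ))).card : ℝ) ≤
      ((Tp x z).card : ℝ) := by
    refine le_trans ?_ hT
    refine le_trans ?_ h3
    exact mul_le_mul_of_nonneg_left h2 (Nat.cast_nonneg _)
  have h5 : (∑ i : Fin m₀, ((BadP x z (t ((e i : F) : ℕ))).card : ℝ)) ≤
      r * L * ((Tp x z).card : ℝ) +
        m₀ * ((Exq x r (fun i : Fin m₀ => t ((e i : F) : ℕ))).card : ℝ) := by
    exact_mod_cast h1
  have h6 : (m₀ : ℝ) * (η * ((Tp x z).card : ℝ)) ≤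
      ∑ i : Fin m₀, ((BadP x z (t ((e i : F) : ℕ))).card : ℝ) := by
    calc (m₀ : ℝ) * (η * ((Tp x z).card : ℝ)) = ∑ _i : Fin m₀, η * ((Tp x z).card : ℝ) := by
          rw [sum_const, card_univ, Fintype.card_fin, nsmul_eq_mul]
      _ ≤ _ := sum_le_sum fun i _ => (hS _ (hFp i)).2.2.2.2.le
  have h7 : ((r : ℝ) * L + 1) / η < m₀ := by
    rw [hm₀]
    push_cast
    have := Nat.le_ceil (((r : ℝ) * L + 1) / η)
    linarith
  rw [div_lt_iff₀ hη] at h7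
  have h8 := mul_lt_mul_of_pos_right h7 hT0
  linarith

end Pool.Agent.H482.QP
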