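import Pool.Agent.H482.QP.Stm

/-!
Project QP (helper482), task EXQ: the exceptional primes with explicit constants.
-/

set_option autoImplicit false

open Finset

namespace Pool.Agent.H482.QP

open Pool.Agent.H482.QO

theorem exq (h : S_UNI) : S_EXQ := by
  classical
  intro ι _ t ht B hB r hr x hx
  obtain ⟨E, hEdef⟩ : ∃ E : ℕ, E = 2 ^ r * (1 + r * B) := ⟨_, rfl⟩
  have hE : ∀ J : Finset ι, J.card = r → ∀ (A : ℕ) (T : Finset ℕ), 1 ≤ A →
      (∀ p ∈ T, p.Prime ∧ ∃ k : ℕ, 0 < k ∧ k < A ^ J.card ∧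
        ∀ (F : Type) [Field F] [CharP F p] (e : F) (i : J),
        e ^ 2 = t i * e + 1 → e ^ k = 1) → T.card ≤ (2 * A + 1) ^ J.card * (E * A) := by
    intro J hJ A T hA hT
    have h' := h J (fun i : J => t i)
      (ht.comp (fun i : J => (i : ι)) Subtype.val_injective) B (fun i => hB i) A T hA
    rw [Fintype.card_coe, hJ] at h'
    rw [hJ, hEdef]
    rw [hJ] at hT
    exact h' hT
  have hx1 : (1 : ℝ) ≤ x := by exact_mod_cast hx
  have hx0 : (0 : ℝ) < x := by linarith
  have hr0 : (0 : ℝ) < r := by exact_mod_cast (by omega : 0 < r)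
  have hr2 : (2 : ℝ) ≤ r := by exact_mod_cast hr
  set θ : ℝ := ((r : ℝ) - 2) / ((r : ℝ) * r) with hθ
  have hθ0 : 0 ≤ θ := div_nonneg (by linarith) (by positivity)
  set y : ℝ := (x : ℝ) ^ θ with hy
  have hy1 : 1 ≤ y := Real.one_le_rpow hx1 hθ0
  set A : ℕ := ⌊4 * y⌋₊ + 1 with hA
  have hyA : 4 * y < A := by rw [hA]; push_cast; exact Nat.lt_floor_add_one _
  have hA2 : (A : ℝ) ≤ 5 * y := by
    rw [hA]; push_cast
    have := Nat.floor_le (by linarith : 0 ≤ 4 * y)
    linarith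
  have hyr : y ^ (r * r) = (x : ℝ) ^ (r - 2) := by
    rw [hy, ← Real.rpow_natCast, ← Real.rpow_natCast, ← Real.rpow_mul hx0.le]
    congr 1
    push_cast [Nat.cast_sub hr]
    rw [hθ]
    field_simp
  have hcond : 4 ^ r * x ^ (r - 2) < A ^ (r * r) := by
    have h2 : (4 * y) ^ (r * r) < (A : ℝ) ^ (r * r) :=
      pow_lt_pow_left₀ hyA (by linarith) (by positivity)
    rw [mul_pow, hyr] at h2
    have h3 : (4 : ℝ) ^ r ≤ 4 ^ (r * r) := by
      apply pow_le_pow_right₀ (by norm_num)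
      nlinarith
    have h4 : (4 : ℝ) ^ r * (x : ℝ) ^ (r - 2) < (A : ℝ) ^ (r * r) := by
      refine lt_of_le_of_lt ?_ h2
      exact mul_le_mul_of_nonneg_right h3 (by positivity)
    exact_mod_cast h4
  set T : Finset ι → Finset ℕ := fun J => (Exq x r t).filter (fun p => p.Prime ∧
      ∃ k : ℕ, 0 < k ∧ k < A ^ J.card ∧ ∀ (F : Type) [Field F] [CharP F p] (e : F) (i : J),
        e ^ 2 = t i * e + 1 → e ^ k = 1) with hT
  have hTc : ∀ J ∈ (univ : Finset ι).powersetCard r, ((T J).card : ℝ) ≤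
      5 * 11 ^ r * (E : ℝ) * (x : ℝ) ^ (1 - 1 / (r : ℝ)) := by
    intro J hJ
    have hJr := (mem_powersetCard.1 hJ).2
    have h1 := hE J hJr A (T J) (by omega) (fun p hp => by
      simp only [hT] at hp
      rw [mem_filter] at hp
      exact hp.2)
    rw [hJr] at h1
    have h2 : ((T J).card : ℝ) ≤ (2 * (A : ℝ) + 1) ^ r * (E * A) := by exact_mod_cast h1
    have h3 : (2 * (A : ℝ) + 1) ≤ 11 * y := by linarith
    have h4 : (2 * (A : ℝ) + 1) ^ r * (E * A) ≤ (11 * y) ^ r * (E * (5 * y)) := by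
      gcongr
    have h5 : (11 * y) ^ r * ((E : ℝ) * (5 * y)) = 5 * 11 ^ r * (E : ℝ) * y ^ (r + 1) := by
      rw [mul_pow, pow_succ y r]
      ring
    have h10 : y ^ (r + 1) ≤ (x : ℝ) ^ (1 - 1 / (r : ℝ)) := by
      rw [hy, ← Real.rpow_natCast, ← Real.rpow_mul hx0.le]
      apply Real.rpow_le_rpow_of_exponent_le hx1
      rw [hθ]
      push_cast
      have e : 1 - 1 / (r : ℝ) = ((r : ℝ) * r - r) / (r * r) := by field_simp
      rw [e, div_mul_eq_mul_div, div_le_div_iff_of_pos_right (by positivity)]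
      nlinarith
    refine h2.trans (h4.trans ?_)
    rw [h5]
    exact mul_le_mul_of_nonneg_left h10 (by positivity)
  have hsub : Exq x r t ⊆ ((univ : Finset ι).powersetCard r).biUnion T := by
    intro p hp
    have hp' := hp
    unfold Exq at hp
    rw [mem_filter, mem_Icc] at hp
    obtain ⟨⟨hp1, hpx⟩, hpp, hp4, l, hl, hl3, hlp, hlr, J, hJ, hJd⟩ := hp
    obtain ⟨I, hI, hIc⟩ := exists_subset_card_eq hJ
    rw [mem_biUnion]
    refine ⟨I, mem_powersetCard.2 ⟨subset_univ _, hIc⟩, ?_⟩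
    simp only [hT]
    rw [mem_filter, hIc]
    obtain ⟨m, hm⟩ : ∃ m : ℕ, m = (p + 1) / l := ⟨_, rfl⟩
    have hml : m * l = p + 1 := by rw [hm]; exact Nat.div_mul_cancel hlp
    have hm0 : 0 < m := by
      rcases Nat.eq_zero_or_pos m with h | h
      · rw [h, zero_mul] at hml
        omega
      · exact h
    have h4m : 4 ∣ m := by
      have h1 : 4 ∣ m * l := by rw [hml]; omega
      have h2 : Nat.Coprime 4 l := by
        have h3 : Nat.Coprime 2 l := (Nat.coprime_primes Nat.prime_two hl).2 (by omega)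
        exact Nat.Coprime.pow_left 2 h3
      exact h2.dvd_of_dvd_mul_right h1
    have hme : Even m := even_iff_two_dvd.2 ((by norm_num : 2 ∣ 4).trans h4m)
    refine ⟨hp', hpp, 2 * m, by omega, ?_, ?_⟩
    · have h2 : m * l ≤ 2 * x := by omega
      have h3 : (2 * m) ^ r * x ^ 2 ≤ 4 ^ r * x ^ (r - 2) * x ^ 2 := by
        calc (2 * m) ^ r * x ^ 2 ≤ (2 * m) ^ r * l ^ r := Nat.mul_le_mul_left _ hlr
          _ = (2 * (m * l)) ^ r := by rw [← mul_pow]; congr 1; ring
          _ ≤ (2 * (2 * x)) ^ r := Nat.pow_le_pow_left (Nat.mul_le_mul_left 2 h2) r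
          _ = 4 ^ r * x ^ r := by rw [← mul_pow]; congr 1; ring
          _ = 4 ^ r * x ^ (r - 2) * x ^ 2 := by
              rw [mul_assoc, ← pow_add]; congr 2; omega
      have h4 : (2 * m) ^ r ≤ 4 ^ r * x ^ (r - 2) := Nat.le_of_mul_le_mul_right h3 (by positivity)
      have h5 : (2 * m) ^ r < (A ^ r) ^ r := by
        rw [← pow_mul]
        exact lt_of_le_of_lt h4 hcond
      exact lt_of_pow_lt_pow_left₀ r (Nat.zero_le _) h5
    · intro F _ _ e i he
      apply pow_eq_one_of_dvd p (t i) m hme hm0 _ e he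
      rw [hm]
      exact hJd i (hI i.2)
  calc ((Exq x r t).card : ℝ) ≤ ((((univ : Finset ι).powersetCard r).biUnion T).card : ℝ) := by
        exact_mod_cast card_le_card hsub
    _ ≤ ∑ J ∈ (univ : Finset ι).powersetCard r, ((T J).card : ℝ) := by
        exact_mod_cast card_biUnion_le
    _ ≤ ∑ J ∈ (univ : Finset ι).powersetCard r,
          5 * 11 ^ r * (E : ℝ) * (x : ℝ) ^ (1 - 1 / (r : ℝ)) := sum_le_sum hTc
    _ = ((Fintype.card ι).choose r : ℝ) *
          (5 * 11 ^ r * (E : ℝ) * (x : ℝ) ^ (1 - 1 / (r : ℝ))) := by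
        rw [sum_const, card_powersetCard, card_univ, nsmul_eq_mul]
    _ ≤ (Fintype.card ι : ℝ) ^ r *
          (5 * 11 ^ r * (E : ℝ) * (x : ℝ) ^ (1 - 1 / (r : ℝ))) := by
        apply mul_le_mul_of_nonneg_right _ (by positivity)
        exact_mod_cast Nat.choose_le_pow (Fintype.card ι) r
    _ = _ := by
        rw [hEdef]
        push_cast
        ring


end Pool.Agent.H482.QP
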