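import Mathlib
import Pool.Agent.H482.QP.Stm
import Pool.Agent.H482.AP.Ind
import Pool.Agent.H482.AP.Lsa
import Pool.Agent.H482.AP.Few

/-! The large sieve for real characters and a set sifted by the classes `0` and `-1`. -/

set_option autoImplicit false

namespace Pool.Agent.H482.QP

open Finset

open Pool.Agent.Helper112 (ee)
open Pool.Agent.H482.AP (AS red g S_TWO S_LEG S_GSU dens prod_factors)
open Pool.Agent.H482.AP.Ind (split jac_norm_factor g_mul red_one)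
open Pool.Agent.H482.AP.LSAx (AS_nonneg ALS)

/-- Montgomery's inequality for one prime and the two classes `0`, `-1` -/
def S_MONP : Prop := ∀ (p N : ℕ) (b : ℕ → ℂ), p.Prime → 3 ≤ p →
  (∀ n ∈ Icc 1 N, (n % p = 0 ∨ n % p = p - 1) → b n = 0) →
  2 / ((p : ℝ) - 2) * ‖∑ n ∈ Icc 1 N, b n‖ ^ 2 ≤ AS N b p

theorem monp (h : S_MONG) : S_MONP := by
  intro p N b hp hp3 hb
  exact h p N 0 (p - 1) b hp hp3 (by omega) (by omega) (by omega) hb

def S_INDP : Prop := ∀ (D m N : ℕ) (b : ℕ → ℂ), Squarefree D → Odd D → Squarefree m → Odd m →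
  D.Coprime m →
  (∀ p ∈ m.primeFactors, ∀ n ∈ Icc 1 N, (n % p = 0 ∨ n % p = p - 1) → b n = 0) →
  g m * ‖∑ n ∈ Icc 1 N, b n * ((jacobiSym n D : ℤ) : ℂ)‖ ^ 2 ≤ AS N b (D * m)

open Classical in
def S_LSAP : Prop := ∀ (N Q R : ℕ) (S : Finset ℕ) (a : ℕ → ℂ),
  (∀ D ∈ S, Squarefree D ∧ Odd D ∧ D ≤ Q) →
  (∀ p : ℕ, p.Prime → 3 ≤ p → p ≤ R → ∀ n ∈ Icc 1 N, (n % p = 0 ∨ n % p = p - 1) → a n = 0) →
  (∑ m ∈ (Icc 1 R).filter (fun m => Squarefree m ∧ Nat.Coprime (2 * ∏ D ∈ S, D) m), g m) *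
    ∑ D ∈ S, ‖∑ n ∈ Icc 1 N, a n * ((jacobiSym n D : ℤ) : ℂ)‖ ^ 2 ≤
      6 * (N + ((Q * R : ℕ) : ℝ) ^ 2) * ∑ n ∈ Icc 1 N, ‖a n‖ ^ 2

theorem indp (h2 : S_TWO) (hM : S_MONP) (hL : S_LEG) : S_INDP := by
  intro D m N b
  induction hk : D * m using Nat.strong_induction_on generalizing D m b with
  | _ k ih =>
    intro hD hDo hm hmo hDm hb
    rw [← hk]
    have hD0 : D ≠ 0 := hD.ne_zero
    have hm0 : m ≠ 0 := hm.ne_zero
    by_cases hm1 : m = 1
    · subst hm1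
      by_cases hD1 : D = 1
      · subst hD1
        unfold g AS
        rw [Nat.primeFactors_one, prod_empty, one_mul, mul_one, red_one, sum_singleton]
        apply le_of_eq
        congr 2
        refine sum_congr rfl (fun n _ => ?_)
        rw [jacobiSym.one_right]
        simp [Pool.Agent.Helper112.ls_ee_zero]
      · -- split a prime of D
        have hp : (D.minFac).Prime := Nat.minFac_prime hD1
        obtain ⟨p, hpd⟩ : ∃ p, p = D.minFac := ⟨_, rfl⟩
        obtain ⟨D', hD'⟩ : ∃ D', D = p * D' := by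
          rw [hpd]
          exact Nat.minFac_dvd D
        rw [← hpd] at hp
        clear hpd
        subst hD'
        have hD'0 : D' ≠ 0 := right_ne_zero_of_mul hD0
        have hsq := (Nat.squarefree_mul_iff).1 hD
        have hpo : Odd p := (Nat.odd_mul.1 hDo).1
        have hp3 : 3 ≤ p := by
          have := hp.two_le
          rcases Nat.lt_or_ge p 3 with h | h
          · have : p = 2 := by omega
            rw [this] at hpo
            exact absurd hpo (by decide)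
          · exact h
        have e1 : p * D' * 1 = p * D' := mul_one _
        rw [e1, split h2 N p D' b (by omega) (by omega) hsq.1]
        have e2 : ∀ d ∈ red D', ‖∑ n ∈ Icc 1 N, (b n * ((jacobiSym n p : ℤ) : ℂ)) *
            ee ((n : ℝ) * d / D')‖ ^ 2 ≤
            AS N (fun n => b n * ee ((n : ℝ) * ((d : ℝ) / D'))) p := by
          intro d _
          have h3 := hL p N (fun n => b n * ee ((n : ℝ) * ((d : ℝ) / D'))) hp hp3
          refine le_trans (le_of_eq ?_) h3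
          congr 2
          refine sum_congr rfl (fun n _ => ?_)
          rw [mul_div_assoc]
          ring
        refine le_trans ?_ (sum_le_sum e2)
        have h4 := ih (D' * 1) (by
          rw [← hk, mul_one, mul_one]
          have : D' * 1 < D' * p := Nat.mul_lt_mul_of_pos_left (by omega) (by omega)
          rw [mul_one, mul_comm D' p] at this
          exact this) D' 1 (fun n => b n * ((jacobiSym n p : ℤ) : ℂ)) rfl hsq.2.2
          (Nat.odd_mul.1 hDo).2 squarefree_one odd_one (Nat.coprime_one_right D')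
          (by intro q hq; simp at hq)
        rw [mul_one] at h4
        refine le_trans (le_of_eq ?_) h4
        congr 3
        refine sum_congr rfl (fun n _ => ?_)
        rw [jac_norm_factor n p D' hp.ne_zero hD'0]
        ring
    · have hp : (m.minFac).Prime := Nat.minFac_prime hm1
      obtain ⟨p, hpd⟩ : ∃ p, p = m.minFac := ⟨_, rfl⟩
      obtain ⟨m', hm'⟩ : ∃ m', m = p * m' := by
        rw [hpd]
        exact Nat.minFac_dvd m
      rw [← hpd] at hp
      clear hpd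
      subst hm'
      have hm'0 : m' ≠ 0 := right_ne_zero_of_mul hm0
      have hsq := (Nat.squarefree_mul_iff).1 hm
      have hpo : Odd p := (Nat.odd_mul.1 hmo).1
      have hp3 : 3 ≤ p := by
        have := hp.two_le
        rcases Nat.lt_or_ge p 3 with h | h
        · have : p = 2 := by omega
          rw [this] at hpo
          exact absurd hpo (by decide)
        · exact h
      have hDp : D.Coprime p := hDm.coprime_mul_right_right
      have hDm' : D.Coprime m' := hDm.coprime_mul_left_right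
      have e1 : D * (p * m') = p * (D * m') := by ring
      have hcM : p.Coprime (D * m') := Nat.Coprime.mul_right hDp.symm hsq.1
      have hM1 : 1 ≤ D * m' := Nat.one_le_iff_ne_zero.2 (mul_ne_zero hD0 hm'0)
      rw [e1, split h2 N p (D * m') b (by omega) hM1 hcM]
      have hp2 : (0 : ℝ) ≤ 2 / ((p : ℝ) - 2) := by
        have : (3 : ℝ) ≤ p := by exact_mod_cast hp3
        apply div_nonneg (by norm_num)
        linarith
      have hbp : ∀ n ∈ Icc 1 N, (n % p = 0 ∨ n % p = p - 1) → b n = 0 :=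
        hb p (Nat.mem_primeFactors.2 ⟨hp, dvd_mul_right p m', hm0⟩)
      have e2 : ∀ d ∈ red (D * m'), 2 / ((p : ℝ) - 2) * ‖∑ n ∈ Icc 1 N, b n *
          ee ((n : ℝ) * d / ((D * m' : ℕ) : ℝ))‖ ^ 2 ≤
          AS N (fun n => b n * ee ((n : ℝ) * ((d : ℝ) / ((D * m' : ℕ) : ℝ)))) p := by
        intro d _
        have h3 := hM p N (fun n => b n * ee ((n : ℝ) * ((d : ℝ) / ((D * m' : ℕ) : ℝ)))) hp hp3
          (fun n hn h => by
            rw [hbp n hn h, zero_mul])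
        refine le_trans (le_of_eq ?_) h3
        congr 3
        refine sum_congr rfl (fun n _ => ?_)
        rw [mul_div_assoc]
      refine le_trans ?_ (sum_le_sum e2)
      rw [← mul_sum, g_mul p m' hp hsq.1 hm'0, mul_assoc]
      apply mul_le_mul_of_nonneg_left _ hp2
      have h4 := ih (D * m') (by
        rw [← hk, e1]
        have : 1 * (D * m') < p * (D * m') := Nat.mul_lt_mul_of_pos_right (by omega) (by omega)
        rw [one_mul] at this
        exact this) D m' b rfl hD hDo hsq.2.2 (Nat.odd_mul.1 hmo).2 hDm'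
        (fun q hq => hb q (by
          rw [Nat.primeFactors_mul hp.ne_zero hm'0]
          exact mem_union_right _ hq))
      exact h4

theorem lsap (h : S_INDP) : S_LSAP := by
  classical
  intro N Q R S a hS hsift
  set W := ∏ D ∈ S, D with hW
  set Ms := (Icc 1 R).filter (fun m => Squarefree m ∧ Nat.Coprime (2 * W) m) with hMs
  have hdvd : ∀ D ∈ S, D ∣ W := fun D hD => Finset.dvd_prod_of_mem _ hD
  have hm : ∀ m ∈ Ms, (1 ≤ m ∧ m ≤ R) ∧ Squarefree m ∧ Odd m ∧ Nat.Coprime m W := by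
    intro m hm
    rw [hMs, Finset.mem_filter, Finset.mem_Icc] at hm
    refine ⟨hm.1, hm.2.1, ?_, ?_⟩
    · have h1 := Nat.Coprime.coprime_mul_right hm.2.2
      exact (Nat.coprime_two_left).1 h1
    · exact (Nat.Coprime.coprime_mul_left hm.2.2).symm
  have h1 : ∀ m ∈ Ms, ∀ D ∈ S,
      g m * ‖∑ n ∈ Icc 1 N, a n * ((jacobiSym n D : ℤ) : ℂ)‖ ^ 2 ≤ AS N a (D * m) := by
    intro m hmm D hD
    obtain ⟨⟨h2, h3⟩, h4, h5, h6⟩ := hm m hmm
    obtain ⟨h7, h8, h9⟩ := hS D hD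
    refine h D m N a h7 h8 h4 h5 ((h6.coprime_dvd_right (hdvd D hD)).symm) ?_
    intro p hp n hn hpn
    have hpp := Nat.prime_of_mem_primeFactors hp
    have hpd := Nat.dvd_of_mem_primeFactors hp
    have hp2 : p ≠ 2 := by
      rintro rfl
      exact (Nat.not_even_iff_odd.2 h5) (even_iff_two_dvd.2 hpd)
    have hp3 : 3 ≤ p := by
      have := hpp.two_le
      omega
    exact hsift p hpp hp3 ((Nat.le_of_dvd h2 hpd).trans h3) n hn hpn
  have h2 : (∑ m ∈ Ms, g m) *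
      ∑ D ∈ S, ‖∑ n ∈ Icc 1 N, a n * ((jacobiSym n D : ℤ) : ℂ)‖ ^ 2 ≤
      ∑ x ∈ Ms ×ˢ S, AS N a (x.2 * x.1) := by
    rw [Finset.sum_mul_sum, Finset.sum_product]
    exact Finset.sum_le_sum fun m hmm => Finset.sum_le_sum fun D hD => h1 m hmm D hD
  have hinj : Set.InjOn (fun x : ℕ × ℕ => x.2 * x.1) (Ms ×ˢ S : Finset (ℕ × ℕ)) := by
    rintro ⟨m, D⟩ hx ⟨m', D'⟩ hx' hxx
    rw [Finset.mem_coe, Finset.mem_product] at hx hx'
    simp only at hx hx' hxx
    obtain ⟨-, -, -, h6⟩ := hm m hx.1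
    obtain ⟨-, -, -, h6'⟩ := hm m' hx'.1
    have e1 : Nat.gcd (D * m) W = D := by
      rw [Nat.Coprime.gcd_mul_right_cancel D h6]
      exact Nat.gcd_eq_left (hdvd D hx.2)
    have e2 : Nat.gcd (D' * m') W = D' := by
      rw [Nat.Coprime.gcd_mul_right_cancel D' h6']
      exact Nat.gcd_eq_left (hdvd D' hx'.2)
    have e3 : D = D' := by rw [← e1, ← e2, hxx]
    have hD0 : 0 < D := Nat.pos_of_ne_zero (hS D hx.2).1.ne_zero
    subst e3
    have e4 : m = m' := Nat.eq_of_mul_eq_mul_left hD0 hxx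
    rw [e4]
  have h3 : ∑ x ∈ Ms ×ˢ S, AS N a (x.2 * x.1) =
      ∑ f ∈ (Ms ×ˢ S).image (fun x : ℕ × ℕ => x.2 * x.1), AS N a f :=
    (Finset.sum_image hinj).symm
  have h4 : (Ms ×ˢ S).image (fun x : ℕ × ℕ => x.2 * x.1) ⊆ Icc 1 (Q * R) := by
    intro f hf
    rw [Finset.mem_image] at hf
    obtain ⟨⟨m, D⟩, hx, rfl⟩ := hf
    rw [Finset.mem_product] at hx
    obtain ⟨⟨h5, h6⟩, -, -, -⟩ := hm m hx.1
    obtain ⟨h7, -, h9⟩ := hS D hx.2
    have hD0 : 0 < D := Nat.pos_of_ne_zero h7.ne_zero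
    rw [Finset.mem_Icc]
    exact ⟨Nat.mul_pos hD0 h5, Nat.mul_le_mul h9 h6⟩
  refine h2.trans ?_
  rw [h3]
  exact (Finset.sum_le_sum_of_subset_of_nonneg h4 fun f _ _ => AS_nonneg N a f).trans
    (ALS N (Q * R) a)

/-- few moduli with a large character sum -/
theorem few_DP (hLSA : S_LSAP) (hGSU : S_GSU) (x Q R s M₀ Y r : ℕ) (T' : Finset ℕ) (t ε : ℝ)
    (hT1 : T' ⊆ Icc 1 x) (hT2 : ∀ n ∈ T', ∀ l : ℕ, l.Prime → 3 ≤ l → l ≤ R → n % l ≠ 0 ∧ n % l ≠ l - 1)
    (hQR : (Q * R) ^ 2 ≤ x) (hs : 1 ≤ s) (hsR : s * s ≤ R) (S : Finset ℕ)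
    (hS : ∀ D ∈ S, Squarefree D ∧ Odd D ∧ D ≤ Q ∧ D.primeFactors.card ≤ r ∧ ∀ p ∈ D.primeFactors, Y < p)
    (hSM : S.card ≤ M₀) (hY : 2 * (r * M₀) ≤ Y) (hY2 : 2 ≤ Y) (hTt : (T'.card : ℝ) ≤ t) (ht : 0 ≤ t)
    (hε : 0 ≤ ε)
    (hbig : ∀ D ∈ S, ε * t ≤ |∑ p ∈ T', ((jacobiSym p D : ℤ) : ℝ)|) :
    (1 / 4 * Real.log s) ^ 2 * (S.card * (ε * t) ^ 2) ≤ 12 * x * t := by
  classical
  set a : ℕ → ℂ := fun n => if n ∈ T' then 1 else 0 with ha
  have h1 := hLSA x Q R S a (fun D hD => ⟨(hS D hD).1, (hS D hD).2.1, (hS D hD).2.2.1⟩) (by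
    intro p hp hp3 hpR n _ hn01
    simp only [ha]
    rw [if_neg]
    intro hn
    have := hT2 n hn p hp hp3 hpR
    tauto)
  obtain ⟨hq0, hqc, hqY⟩ := prod_factors S r Y (fun D hD => ⟨(hS D hD).1.ne_zero, (hS D hD).2.2.2⟩)
  have hq1 : 1 ≤ ∏ D ∈ S, D := Nat.pos_of_ne_zero hq0
  have h2 := hGSU (∏ D ∈ S, D) s R hq1 hs hsR
  have hd := dens (∏ D ∈ S, D) (r * M₀) Y hq0 (hqc.trans (Nat.mul_le_mul_left r hSM)) hqY hY hY2
  have hlogs : 0 ≤ Real.log s := Real.log_natCast_nonneg s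
  have h3 : (1 / 4 * Real.log s) ^ 2 ≤ ∑ m ∈ (Icc 1 R).filter
      (fun m => Squarefree m ∧ Nat.Coprime (2 * ∏ D ∈ S, D) m), g m := by
    refine le_trans ?_ h2
    apply pow_le_pow_left₀ (by positivity)
    exact mul_le_mul_of_nonneg_right hd hlogs
  have hsum : ∀ D : ℕ, ∑ n ∈ Icc 1 x, a n * ((jacobiSym n D : ℤ) : ℂ) =
      ((∑ p ∈ T', ((jacobiSym p D : ℤ) : ℝ) : ℝ) : ℂ) := by
    intro D
    simp only [ha, ite_mul, one_mul, zero_mul]
    rw [← sum_filter, filter_mem_eq_inter, inter_eq_right.2 hT1]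
    push_cast
    rfl
  have h4 : (S.card : ℝ) * (ε * t) ^ 2 ≤
      ∑ D ∈ S, ‖∑ n ∈ Icc 1 x, a n * ((jacobiSym n D : ℤ) : ℂ)‖ ^ 2 := by
    rw [← nsmul_eq_mul, ← sum_const]
    apply sum_le_sum
    intro D hD
    rw [hsum, Complex.norm_real, Real.norm_eq_abs]
    exact pow_le_pow_left₀ (mul_nonneg hε ht) (hbig D hD) 2
  have h5 : ∑ n ∈ Icc 1 x, ‖a n‖ ^ 2 = T'.card := by
    have : ∀ n ∈ Icc 1 x, ‖a n‖ ^ 2 = if n ∈ T' then (1 : ℝ) else 0 := by
      intro n _
      simp only [ha]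
      split_ifs <;> simp
    rw [sum_congr rfl this, ← sum_filter, filter_mem_eq_inter, inter_eq_right.2 hT1]
    simp
  rw [h5] at h1
  have h6 : (((Q * R : ℕ) : ℝ)) ^ 2 ≤ x := by exact_mod_cast hQR
  have h0 : 0 ≤ (S.card : ℝ) * (ε * t) ^ 2 := by positivity
  calc (1 / 4 * Real.log s) ^ 2 * (S.card * (ε * t) ^ 2)
      ≤ (∑ m ∈ (Icc 1 R).filter (fun m => Squarefree m ∧ Nat.Coprime (2 * ∏ D ∈ S, D) m), g m) *
        ∑ D ∈ S, ‖∑ n ∈ Icc 1 x, a n * ((jacobiSym n D : ℤ) : ℂ)‖ ^ 2 :=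
        mul_le_mul h3 h4 h0 (le_trans (by positivity) h3)
    _ ≤ 6 * (x + ((Q * R : ℕ) : ℝ) ^ 2) * T'.card := h1
    _ ≤ 12 * x * t := by
        have h7 : 6 * ((x : ℝ) + ((Q * R : ℕ) : ℝ) ^ 2) ≤ 12 * x := by linarith
        exact mul_le_mul h7 hTt (Nat.cast_nonneg _) (by positivity)

end Pool.Agent.H482.QP
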