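import Mathlib
import Pool.Agent.H482.QP.Stm

/-!
# PLA: a nontrivial solution of the Pell equation of bounded size
-/

set_option autoImplicit false

namespace Pool.Agent.H482.QP

open Finset

namespace Pla

theorem two_le {d : ℕ} (hd : ¬ IsSquare d) : 2 ≤ d := by
  by_contra h
  have : d = 0 ∨ d = 1 := by omega
  rcases this with h | h
  · exact hd (h ▸ ⟨0, rfl⟩)
  · exact hd (h ▸ ⟨1, rfl⟩)

theorem norm_ne {d : ℕ} (hd : ¬ IsSquare d) {x y : ℤ} (hy : 0 < y) : x ^ 2 - d * y ^ 2 ≠ 0 := by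
  intro h
  have h1 : x.natAbs ^ 2 = d * y.natAbs ^ 2 := by
    zify
    rw [sq_abs, sq_abs]
    linarith
  have h2 : y.natAbs ∣ x.natAbs := by
    rw [← Nat.pow_dvd_pow_iff (n := 2) (by norm_num), h1]
    exact dvd_mul_left _ _
  obtain ⟨k, hk⟩ := h2
  have h3 : 0 < y.natAbs := Int.natAbs_pos.2 hy.ne'
  have h4 : d * y.natAbs ^ 2 = (k * k) * y.natAbs ^ 2 := by
    rw [← h1, hk]
    ring
  exact hd ⟨k, Nat.eq_of_mul_eq_mul_right (by positivity) h4⟩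

/-- `(x, y)` is a good approximation of `√d` at the scale `N` -/
def Ap (d N : ℕ) (x y : ℤ) : Prop :=
  0 < x ∧ 0 < y ∧ y ≤ N ∧ |(y : ℝ) * √(d : ℝ) - x| ≤ 1 / ((N : ℝ) + 1)

section
variable {d : ℕ} (hd : 2 ≤ d)
include hd

theorem s_bd : 1 < √(d : ℝ) ∧ √(d : ℝ) < d ∧ √(d : ℝ) * √(d : ℝ) = d := by
  have h2 : (2 : ℝ) ≤ d := by exact_mod_cast hd
  have h0 : √(d : ℝ) * √(d : ℝ) = d := Real.mul_self_sqrt (by linarith)
  have h1 : 1 < √(d : ℝ) := by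
    rw [Real.lt_sqrt (by norm_num)]
    linarith
  refine ⟨h1, ?_, h0⟩
  nlinarith

theorem exists_ap {N : ℕ} (hN : 1 ≤ N) : ∃ x y : ℤ, Ap d N x y := by
  obtain ⟨x, y, h1, h2, h3⟩ := Real.exists_int_int_abs_mul_sub_le (√(d : ℝ)) (n := N) (by omega)
  obtain ⟨g1, g2, g3⟩ := s_bd hd
  refine ⟨x, y, ?_, h1, h2, h3⟩
  have h4 : (1 : ℝ) ≤ y := by exact_mod_cast h1
  have h5 : 1 / ((N : ℝ) + 1) ≤ 1 / 2 := by
    apply one_div_le_one_div_of_le (by norm_num)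
    have : (1 : ℝ) ≤ N := by exact_mod_cast hN
    linarith
  have h6 := (abs_le.1 h3).2
  have h7 : (0 : ℝ) < x := by nlinarith
  exact_mod_cast h7

theorem ap_sum {N : ℕ} {x y : ℤ} (h : Ap d N x y) :
    (x : ℝ) + y * √(d : ℝ) ≤ 2 * N * √(d : ℝ) + 1 := by
  obtain ⟨h1, h2, h3, h4⟩ := h
  obtain ⟨g1, g2, g3⟩ := s_bd hd
  have h5 := (abs_le.1 h4).1
  have h6 : 1 / ((N : ℝ) + 1) ≤ 1 := by
    rw [div_le_one (by positivity)]
    have : (0 : ℝ) ≤ N := Nat.cast_nonneg N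
    linarith
  have h7 : (y : ℝ) ≤ N := by exact_mod_cast h3
  nlinarith

theorem ap_norm {N : ℕ} {x y : ℤ} (h : Ap d N x y) :
    |((x ^ 2 - d * y ^ 2 : ℤ) : ℝ)| ≤ 2 * √(d : ℝ) + 1 := by
  have hs := ap_sum hd h
  obtain ⟨h1, h2, h3, h4⟩ := h
  obtain ⟨g1, g2, g3⟩ := s_bd hd
  have h5 : ((x ^ 2 - d * y ^ 2 : ℤ) : ℝ) = -(((y : ℝ) * √(d : ℝ) - x) * (x + y * √(d : ℝ))) := by
    push_cast
    have : (d : ℝ) = √(d : ℝ) * √(d : ℝ) := g3.symm
    nth_rewrite 1 [this]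
    ring
  have hx : (0 : ℝ) < x := by exact_mod_cast h1
  have hy : (0 : ℝ) < y := by exact_mod_cast h2
  have h6 : 0 ≤ (x : ℝ) + y * √(d : ℝ) := by positivity
  have hN : (0 : ℝ) ≤ N := Nat.cast_nonneg N
  rw [h5, abs_neg, abs_mul, abs_of_nonneg h6]
  calc |(y : ℝ) * √(d : ℝ) - x| * (x + y * √(d : ℝ))
      ≤ 1 / ((N : ℝ) + 1) * (2 * N * √(d : ℝ) + 1) := by gcongr
    _ ≤ 2 * √(d : ℝ) + 1 := by
        rw [div_mul_eq_mul_div, div_le_iff₀ (by positivity)]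
        nlinarith

theorem ap_low (hsq : ¬ IsSquare d) {N : ℕ} {x y : ℤ} (h : Ap d N x y) :
    1 ≤ |(y : ℝ) * √(d : ℝ) - x| * (2 * N * √(d : ℝ) + 1) := by
  have hs := ap_sum hd h
  obtain ⟨h1, h2, h3, h4⟩ := h
  obtain ⟨g1, g2, g3⟩ := s_bd hd
  have h5 : ((x ^ 2 - d * y ^ 2 : ℤ) : ℝ) = -(((y : ℝ) * √(d : ℝ) - x) * (x + y * √(d : ℝ))) := by
    push_cast
    have : (d : ℝ) = √(d : ℝ) * √(d : ℝ) := g3.symm
    nth_rewrite 1 [this]
    ring
  have hx : (0 : ℝ) < x := by exact_mod_cast h1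
  have hy : (0 : ℝ) < y := by exact_mod_cast h2
  have h6 : 0 ≤ (x : ℝ) + y * √(d : ℝ) := by positivity
  have h7 : (1 : ℝ) ≤ |((x ^ 2 - d * y ^ 2 : ℤ) : ℝ)| := by
    have := Int.one_le_abs (norm_ne hsq (x := x) h2)
    exact_mod_cast this
  rw [h5, abs_neg, abs_mul, abs_of_nonneg h6] at h7
  refine h7.trans ?_
  gcongr

theorem ap_lt (hsq : ¬ IsSquare d) {N N' : ℕ} (hN : 1 ≤ N) (hNN : 2 * d * N ≤ N') {x y x' y' : ℤ}
    (h : Ap d N x y) (h' : Ap d N' x' y') :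
    |(y' : ℝ) * √(d : ℝ) - x'| < |(y : ℝ) * √(d : ℝ) - x| := by
  have h1 := ap_low hd hsq h
  obtain ⟨g1, g2, g3⟩ := s_bd hd
  have hN1 : (1 : ℝ) ≤ N := by exact_mod_cast hN
  have h2 : (2 : ℝ) * d * N ≤ N' := by exact_mod_cast hNN
  have h3 : (0 : ℝ) < 2 * N * √(d : ℝ) + 1 := by positivity
  have h4 : 2 * N * √(d : ℝ) + 1 < (N' : ℝ) + 1 := by nlinarith
  calc |(y' : ℝ) * √(d : ℝ) - x'| ≤ 1 / ((N' : ℝ) + 1) := h'.2.2.2
    _ < 1 / (2 * N * √(d : ℝ) + 1) := one_div_lt_one_div_of_lt h3 h4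
    _ ≤ |(y : ℝ) * √(d : ℝ) - x| := by
        rw [div_le_iff₀ h3]
        exact h1

theorem ap_x {N : ℕ} {x y : ℤ} (hN : 1 ≤ N) (h : Ap d N x y) : x ≤ 2 * d * N := by
  obtain ⟨h1, h2, h3, h4⟩ := h
  obtain ⟨g1, g2, g3⟩ := s_bd hd
  have h5 := (abs_le.1 h4).1
  have h6 : 1 / ((N : ℝ) + 1) ≤ 1 := by
    rw [div_le_one (by positivity)]
    have : (0 : ℝ) ≤ N := Nat.cast_nonneg N
    linarith
  have h7 : (y : ℝ) ≤ N := by exact_mod_cast h3
  have hN1 : (1 : ℝ) ≤ N := by exact_mod_cast hN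
  have h8 : (x : ℝ) ≤ 2 * d * N := by
    have h9 : (y : ℝ) * √(d : ℝ) ≤ N * d := by
      apply mul_le_mul h7 g2.le (by positivity) (by positivity)
    have h10 : (1 : ℝ) ≤ N * d := by nlinarith
    linarith
  exact_mod_cast h8

end

theorem pell_of_pair {d : ℕ} {x y x' y' : ℤ} (hy : 0 < y) (hy' : 0 < y') (hx : 0 < x) (hx' : 0 < x')
    {m : ℤ} (hm0 : m ≠ 0) (hm : x ^ 2 - d * y ^ 2 = m) (hm' : x' ^ 2 - d * y' ^ 2 = m)
    (hxx : m ∣ x' - x) (hyy : m ∣ y' - y) (hne : ¬ (x = x' ∧ y = y')) :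
    ∃ u v : ℕ, 1 ≤ v ∧ u ^ 2 = d * v ^ 2 + 1 ∧ (u : ℤ) ≤ x * x' + d * (y * y') := by
  have h1 : m ∣ x * x' - d * (y * y') := by
    have : x * x' - d * (y * y') = x * (x' - x) - d * y * (y' - y) + m := by
      rw [← hm]
      ring
    rw [this]
    exact dvd_add (dvd_sub (hxx.mul_left _) (hyy.mul_left _)) dvd_rfl
  have h2 : m ∣ x * y' - x' * y := by
    have : x * y' - x' * y = x * (y' - y) - y * (x' - x) := by ring
    rw [this]
    exact dvd_sub (hyy.mul_left _) (hxx.mul_left _)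
  obtain ⟨a, ha⟩ := h1
  obtain ⟨b, hb⟩ := h2
  have h3 : m ^ 2 * (a ^ 2 - d * b ^ 2) = m ^ 2 * 1 := by
    have e1 : m ^ 2 * (a ^ 2 - d * b ^ 2) = (m * a) ^ 2 - d * (m * b) ^ 2 := by ring
    rw [e1, ← ha, ← hb]
    have e2 : (x * x' - d * (y * y')) ^ 2 - d * (x * y' - x' * y) ^ 2 =
        (x ^ 2 - d * y ^ 2) * (x' ^ 2 - d * y' ^ 2) := by ring
    rw [e2, hm, hm']
    ring
  have h4 : a ^ 2 - d * b ^ 2 = 1 := mul_left_cancel₀ (pow_ne_zero 2 hm0) h3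
  have hb0 : b ≠ 0 := by
    intro hb0
    rw [hb0, mul_zero] at hb
    have e1 : x * y' = x' * y := by linarith
    have e2 : m * y' ^ 2 = m * y ^ 2 := by
      calc m * y' ^ 2 = (x * y') ^ 2 - d * (y ^ 2 * y' ^ 2) := by rw [← hm]; ring
        _ = (x' * y) ^ 2 - d * (y ^ 2 * y' ^ 2) := by rw [e1]
        _ = m * y ^ 2 := by rw [← hm']; ring
    have e3 : y' ^ 2 = y ^ 2 := mul_left_cancel₀ hm0 e2
    have e4 : y' = y := by
      have := (sq_eq_sq₀ hy'.le hy.le).1 e3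
      exact this
    rw [e4] at e1
    have e5 : x = x' := mul_right_cancel₀ hy.ne' e1
    exact hne ⟨e5, e4.symm⟩
  refine ⟨a.natAbs, b.natAbs, Int.natAbs_pos.2 hb0, ?_, ?_⟩
  · zify
    rw [sq_abs, sq_abs]
    linarith
  · have h5 : |a| ≤ |m * a| := by
      rw [abs_mul]
      exact le_mul_of_one_le_left (abs_nonneg a) (Int.one_le_abs hm0)
    have h6 : |x * x' - d * (y * y')| ≤ x * x' + d * (y * y') := by
      have p1 : 0 < x * x' := mul_pos hx hx'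
      have p2 : 0 ≤ (d : ℤ) * (y * y') := by positivity
      rw [abs_le]
      constructor <;> linarith
    rw [← ha] at h5
    have h7 : ((a.natAbs : ℕ) : ℤ) = |a| := Int.natCast_natAbs a
    rw [h7]
    exact h5.trans h6

end Pla

open Pla in
/-- **PLA.** -/
theorem pla : S_PLA := by
  refine ⟨753, fun d hsq => ?_⟩
  have hd := two_le hsq
  obtain ⟨g1, g2, g3⟩ := s_bd hd
  obtain ⟨r, hr⟩ : ∃ r, r = Nat.sqrt d := ⟨_, rfl⟩
  have hr1 : 1 ≤ r := by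
    rw [hr]
    exact Nat.sqrt_pos.2 (by omega)
  have hr2 : r * r ≤ d := by
    rw [hr]
    exact Nat.sqrt_le d
  have hr3 : d < (r + 1) * (r + 1) := by
    rw [hr]
    exact Nat.lt_succ_sqrt d
  have hs : √(d : ℝ) < r + 1 := by
    have : (d : ℝ) < ((r : ℝ) + 1) * (r + 1) := by exact_mod_cast hr3
    have h0 : (0 : ℝ) ≤ r := Nat.cast_nonneg r
    nlinarith
  obtain ⟨K, hK⟩ : ∃ K, K = 2 * r + 3 := ⟨_, rfl⟩
  obtain ⟨M, hM⟩ : ∃ M, M = (2 * K + 1) * (K * K) := ⟨_, rfl⟩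
  have hB : 1 ≤ 2 * d := by omega
  have hex : ∀ j : ℕ, ∃ p : ℤ × ℤ, Ap d ((2 * d) ^ j) p.1 p.2 := by
    intro j
    obtain ⟨x, y, h⟩ := exists_ap hd (N := (2 * d) ^ j) (Nat.one_le_pow _ _ hB)
    exact ⟨(x, y), h⟩
  choose p hp using hex
  obtain ⟨m, hm⟩ : ∃ m : ℕ → ℤ, m = fun j => (p j).1 ^ 2 - d * (p j).2 ^ 2 := ⟨_, rfl⟩
  have hm0 : ∀ j, m j ≠ 0 := by
    intro j
    rw [hm]
    exact norm_ne hsq (hp j).2.1
  have hmK : ∀ j, |m j| < K := by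
    intro j
    have h1 := ap_norm hd (hp j)
    have h2 : ((|m j| : ℤ) : ℝ) < ((K : ℤ) : ℝ) := by
      rw [hm, Int.cast_abs]
      refine h1.trans_lt ?_
      rw [hK]
      push_cast
      linarith
    exact_mod_cast h2
  obtain ⟨T, hT⟩ : ∃ T : Finset (ℤ × ℤ × ℤ),
      T = Finset.Icc (-(K : ℤ)) K ×ˢ (Finset.Ico (0 : ℤ) K ×ˢ Finset.Ico (0 : ℤ) K) := ⟨_, rfl⟩
  have hTc : T.card = M := by
    rw [hT, Finset.card_product, Finset.card_product, Int.card_Icc, Int.card_Ico, hM]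
    have e1 : ((K : ℤ) + 1 - -(K : ℤ)).toNat = 2 * K + 1 := by omega
    have e2 : ((K : ℤ) - 0).toNat = K := by omega
    rw [e1, e2]
  obtain ⟨i, hi, j, hj, hij, hf⟩ := Finset.exists_ne_map_eq_of_card_lt_of_maps_to
    (s := Finset.range (M + 1)) (t := T)
    (f := fun j => (m j, (p j).1 % m j, (p j).2 % m j)) (by rw [hTc, Finset.card_range]; omega)
    (by
      intro j _
      rw [hT]
      have h1 := abs_lt.1 (hmK j)
      have h2 := Int.emod_nonneg (p j).1 (hm0 j)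
      have h3 := Int.emod_lt_abs (p j).1 (hm0 j)
      have h4 := Int.emod_nonneg (p j).2 (hm0 j)
      have h5 := Int.emod_lt_abs (p j).2 (hm0 j)
      have h6 := hmK j
      simp only [Finset.coe_product, Set.mem_prod, Finset.mem_coe, Finset.mem_Icc, Finset.mem_Ico]
      refine ⟨⟨by linarith, by linarith⟩, ⟨h2, by linarith⟩, ⟨h4, by linarith⟩⟩)
  have hf1 : m i = m j := (Prod.mk.inj hf).1
  have hf2 : (p i).1 % m i = (p j).1 % m j := (Prod.mk.inj (Prod.mk.inj hf).2).1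
  have hf3 : (p i).2 % m i = (p j).2 % m j := (Prod.mk.inj (Prod.mk.inj hf).2).2
  rw [← hf1] at hf2 hf3
  have hxx : m i ∣ (p j).1 - (p i).1 := Int.ModEq.dvd hf2
  have hyy : m i ∣ (p j).2 - (p i).2 := Int.ModEq.dvd hf3
  have hdist : ∀ a b : ℕ, a < b → ¬ ((p a).1 = (p b).1 ∧ (p a).2 = (p b).2) := by
    intro a b hab ⟨e1, e2⟩
    have h1 : 2 * d * (2 * d) ^ a ≤ (2 * d) ^ b := by
      rw [← pow_succ']
      exact Nat.pow_le_pow_right (by omega) (by omega)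
    have h2 := ap_lt hd hsq (Nat.one_le_pow _ _ hB) h1 (hp a) (hp b)
    rw [e1, e2] at h2
    exact lt_irrefl _ h2
  have hne : ¬ ((p i).1 = (p j).1 ∧ (p i).2 = (p j).2) := by
    rcases lt_or_gt_of_ne hij with h | h
    · exact hdist i j h
    · rintro ⟨e1, e2⟩
      exact hdist j i h ⟨e1.symm, e2.symm⟩
  obtain ⟨u, v, hv, huv, hu⟩ := pell_of_pair (d := d) (hp i).2.1 (hp j).2.1 (hp i).1 (hp j).1 (hm0 i)
    (by rw [hm]) (by rw [hf1, hm]) hxx hyy hne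
  refine ⟨u, v, hv, huv, ?_⟩
  have hi' : (2 * d) ^ i ≤ (2 * d) ^ M :=
    Nat.pow_le_pow_right (by omega) (by have := Finset.mem_range.1 hi; omega)
  have hj' : (2 * d) ^ j ≤ (2 * d) ^ M :=
    Nat.pow_le_pow_right (by omega) (by have := Finset.mem_range.1 hj; omega)
  obtain ⟨W, hW⟩ : ∃ W, W = (2 * d) ^ M := ⟨_, rfl⟩
  rw [← hW] at hi' hj'
  have hW1 : 1 ≤ W := by rw [hW]; exact Nat.one_le_pow _ _ hB
  have b1 : (p i).1 ≤ 2 * d * W :=
    (ap_x hd (Nat.one_le_pow _ _ hB) (hp i)).trans (by gcongr)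
  have b2 : (p j).1 ≤ 2 * d * W :=
    (ap_x hd (Nat.one_le_pow _ _ hB) (hp j)).trans (by gcongr)
  have b3 : (p i).2 ≤ W := (hp i).2.2.1.trans (by exact_mod_cast hi')
  have b4 : (p j).2 ≤ W := (hp j).2.2.1.trans (by exact_mod_cast hj')
  have b5 : (u : ℤ) ≤ (2 * d * W) * (2 * d * W) + d * (W * W) := by
    refine hu.trans (add_le_add ?_ ?_)
    · exact mul_le_mul b1 b2 (hp j).1.le (by positivity)
    · exact mul_le_mul_of_nonneg_left (mul_le_mul b3 b4 (hp j).2.1.le (by positivity))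
        (by positivity)
  have b6 : u ≤ (2 * d * W) * (2 * d * W) + d * (W * W) := by exact_mod_cast b5
  have b7 : (2 * d * W) * (2 * d * W) + d * (W * W) ≤ (2 * d) ^ (2 * M + 3) := by
    have e1 : (2 * d) ^ (2 * M + 3) = 8 * d ^ 3 * (W * W) := by
      rw [hW, pow_add, pow_mul', sq]
      ring
    rw [e1]
    have e2 : (2 * d * W) * (2 * d * W) + d * (W * W) = (4 * d ^ 2 + d) * (W * W) := by ring
    rw [e2]
    apply Nat.mul_le_mul_right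
    nlinarith [sq_nonneg d, Nat.zero_le (d ^ 2)]
  have b8 : (2 * d) ^ (2 * M + 3) ≤ (2 ^ d) ^ (2 * M + 3) := by
    apply Nat.pow_le_pow_left
    have : ∀ n : ℕ, 2 ≤ n → 2 * n ≤ 2 ^ n := by
      intro n hn
      induction n, hn using Nat.le_induction with
      | base => norm_num
      | succ n hn ih => rw [pow_succ]; omega
    exact this d hd
  refine b6.trans (b7.trans (b8.trans ?_))
  rw [← pow_mul]
  apply Nat.pow_le_pow_right (by norm_num)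
  have c1 : K ≤ 5 * r := by omega
  have c2 : K * K ≤ 25 * d := by nlinarith
  have c3 : r ≤ d := by nlinarith
  have c4 : 2 * K + 1 ≤ 15 * d := by omega
  have c5 : M ≤ 15 * d * (25 * d) := by
    rw [hM]
    exact Nat.mul_le_mul c4 c2
  have c6 : 2 * M + 3 ≤ 753 * (d * d) := by nlinarith
  calc d * (2 * M + 3) ≤ d * (753 * (d * d)) := Nat.mul_le_mul_left _ c6
    _ = 753 * d ^ 3 := by ring

end Pool.Agent.H482.QP
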