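import Pool.Agent.H482.QP.Stm

/-! PLB: `t² + 4 = q y²` is solvable for primes `q = 1` modulo `4`, with a bound (helper788). -/

set_option autoImplicit false

namespace Pool.Agent.H482.QP

/-- coprime factors of a square -/
theorem plb_sq {a b c : ℕ} (h : Nat.Coprime a b) (he : a * b = c ^ 2) : ∃ d, a = d ^ 2 :=
  exists_eq_pow_of_mul_eq_pow (by rw [Nat.isUnit_iff]; exact h) he

theorem plb' : ∀ q : ℕ, q.Prime → q % 4 = 1 → ∀ u v : ℕ, 1 ≤ v → u ^ 2 = q * v ^ 2 + 1 →
    ∃ t y : ℕ, 1 ≤ t ∧ t ^ 2 + 4 = q * y ^ 2 ∧ t ≤ 2 * u := by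
  intro q hq hq4 u v
  induction v using Nat.strong_induction_on generalizing u with
  | _ v ih =>
    intro hv hu
    -- parity
    have hvev : v % 2 = 0 := by
      by_contra hodd
      have h1 : v % 2 = 1 := by omega
      have h2 : v ^ 2 % 4 = 1 := by
        have : v % 4 = 1 ∨ v % 4 = 3 := by omega
        rcases this with h | h <;> rw [Nat.pow_mod, h]
      have h3 : (q * v ^ 2 + 1) % 4 = 2 := by
        rw [Nat.add_mod, Nat.mul_mod, hq4, h2]
      rw [← hu] at h3
      have h4 : u ^ 2 % 4 = 0 ∨ u ^ 2 % 4 = 1 := by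
        have : u % 4 = 0 ∨ u % 4 = 1 ∨ u % 4 = 2 ∨ u % 4 = 3 := by omega
        rcases this with h | h | h | h <;> rw [Nat.pow_mod, h] <;> decide
      omega
    obtain ⟨w, hw⟩ : ∃ w, v = 2 * w := ⟨v / 2, by omega⟩
    have huod : u % 2 = 1 := by
      by_contra hev
      have h1 : u % 2 = 0 := by omega
      obtain ⟨k, hk⟩ : ∃ k, u = 2 * k := ⟨u / 2, by omega⟩
      rw [hw, hk] at hu
      have h2 : 4 * (k ^ 2) = 4 * (q * w ^ 2) + 1 := by nlinarith
      omega
    obtain ⟨m, hm⟩ : ∃ m, u = 2 * m + 1 := ⟨u / 2, by omega⟩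
    have key : m * (m + 1) = q * w ^ 2 := by
      rw [hw, hm] at hu
      nlinarith
    have hw1 : 1 ≤ w := by omega
    have hq0 : 0 < q := hq.pos
    have hm1 : 1 ≤ m := by
      rcases Nat.eq_zero_or_pos m with h | h
      · rw [h] at key
        have : 0 < q * w ^ 2 := by positivity
        omega
      · exact h
    have hdvd : q ∣ m * (m + 1) := ⟨w ^ 2, key⟩
    rcases (Nat.Prime.dvd_mul hq).1 hdvd with ⟨c, hc⟩ | ⟨c, hc⟩
    · -- `q ∣ m`
      have h1 : c * (m + 1) = w ^ 2 := by
        apply Nat.eq_of_mul_eq_mul_left hq0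
        rw [← key, ← mul_assoc, ← hc]
      have hcop : Nat.Coprime c (m + 1) := by
        have h2 : Nat.Coprime m (m + 1) := (Nat.coprime_self_add_right).2 (Nat.coprime_one_right m)
        exact h2.coprime_dvd_left ⟨q, by rw [hc]; ring⟩
      obtain ⟨a, ha⟩ := plb_sq hcop h1
      obtain ⟨b, hb⟩ := plb_sq hcop.symm (by rw [mul_comm]; exact h1)
      have ha1 : 1 ≤ a := by
        rcases Nat.eq_zero_or_pos a with h | h
        · rw [h] at ha
          rw [ha] at hc
          omega
        · exact h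
      have haw : a ≤ w := by
        have h3 : a ^ 2 ≤ w ^ 2 := by
          rw [← h1, ← ha]
          nlinarith
        exact (Nat.pow_le_pow_iff_left two_ne_zero).1 h3
      have hba : b ^ 2 = q * a ^ 2 + 1 := by rw [← hb, hc, ha]
      obtain ⟨t, y, ht1, ht2, ht3⟩ := ih a (by omega) b ha1 hba
      refine ⟨t, y, ht1, ht2, ht3.trans ?_⟩
      have hbu : b ≤ u := by
        have h4 : b ≤ b ^ 2 := by nlinarith
        omega
      omega
    · -- `q ∣ m + 1`
      have h1 : m * c = w ^ 2 := by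
        apply Nat.eq_of_mul_eq_mul_left hq0
        rw [← key, hc]
        ring
      have hcop : Nat.Coprime m c := by
        have h2 : Nat.Coprime m (m + 1) := (Nat.coprime_self_add_right).2 (Nat.coprime_one_right m)
        exact h2.coprime_dvd_right ⟨q, by rw [hc]; ring⟩
      obtain ⟨b, hb⟩ := plb_sq hcop h1
      obtain ⟨a, ha⟩ := plb_sq hcop.symm (by rw [mul_comm]; exact h1)
      have hb1 : 1 ≤ b := by
        rcases Nat.eq_zero_or_pos b with h | h
        · rw [h] at hb
          omega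
        · exact h
      refine ⟨2 * b, 2 * a, by omega, ?_, ?_⟩
      · have h5 : b ^ 2 + 1 = q * a ^ 2 := by rw [← hb, hc, ha]
        nlinarith
      · have h4 : b ≤ b ^ 2 := by nlinarith
        omega

theorem plb : S_PLB := plb'

end Pool.Agent.H482.QP
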