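import Pool.Agent.H482.QP.Stm
import Pool.Agent.H482.QO.Q3

/-!
Few primes modulo which many independent units generate a small group, with explicit constants
(helper233 for helper482).
-/

set_option autoImplicit false

open Finset NumberField

namespace Pool.Agent.H482.QP

open Pool.Agent.Y855 (card_dvd_le)
open Pool.Agent.H482.QO (IndU Dc Dc_norm exists_dvd eps eps_sq)

section field

variable {L : Type} [Field L] [NumberField L] {ι : Type} [Fintype ι] (t : ι → ℕ)
  (u : ι → (𝓞 L)ˣ)

/-- few primes, for units of a number field -/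
theorem few_small_aux (hu2 : ∀ i, ((u i : 𝓞 L)) ^ 2 = t i * (u i : 𝓞 L) + 1)
    (hne : ∀ c : ι → ℤ, c ≠ 0 → Dc u c ≠ 0) (B : ℕ) (hB : ∀ i, t i + 1 ≤ 2 ^ B)
    (A : ℕ) (T : Finset ℕ) (hA : 1 ≤ A) (hT : ∀ p ∈ T, p.Prime ∧ ∃ k : ℕ, 0 < k ∧
      k < A ^ Fintype.card ι ∧ ∀ (F : Type) [Field F] [CharP F p] (e : F) (i : ι),
        e ^ 2 = t i * e + 1 → e ^ k = 1) :
    T.card ≤ (2 * A + 1) ^ Fintype.card ι *
      (Fintype.card (L →ₐ[ℚ] ℂ) * (1 + Fintype.card ι * B) * A) := by
  classical
  obtain ⟨n, hn⟩ : ∃ n : ℕ, n = Fintype.card (L →ₐ[ℚ] ℂ) := ⟨_, rfl⟩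
  obtain ⟨r, hr⟩ : ∃ r : ℕ, r = Fintype.card ι := ⟨_, rfl⟩
  rw [← hr, ← hn]
  set C : Finset (ι → ℤ) := (Fintype.piFinset (fun _ => Icc (-(A : ℤ)) A)).filter (fun c => c ≠ 0)
    with hC
  have hCcard : C.card ≤ (2 * A + 1) ^ r := by
    refine (card_filter_le _ _).trans (le_of_eq ?_)
    rw [Fintype.card_piFinset, prod_const, Int.card_Icc, Finset.card_univ, ← hr]
    congr 1
    omega
  have hsub : T ⊆ C.biUnion (fun c => T.filter (fun p : ℕ => (p : ℤ) ∣ Algebra.norm ℤ (Dc u c))) := by
    intro p hp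
    obtain ⟨hpp, k, hk, hkA, hkI⟩ := hT p hp
    obtain ⟨c, hc1, hc2, hc3⟩ := exists_dvd t u hu2 p hpp A k hk hkA hkI
    rw [mem_biUnion]
    refine ⟨c, ?_, mem_filter.2 ⟨hp, hc3⟩⟩
    rw [hC, mem_filter, Fintype.mem_piFinset]
    refine ⟨fun i => ?_, hc1⟩
    rw [mem_Icc]
    have := hc2 i
    omega
  refine (card_le_card hsub).trans (card_biUnion_le.trans ?_)
  calc ∑ c ∈ C, (T.filter (fun p : ℕ => (p : ℤ) ∣ Algebra.norm ℤ (Dc u c))).card
      ≤ ∑ _c ∈ C, n * (1 + r * B) * A := by
        apply sum_le_sum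
        intro c hc
        rw [hC, mem_filter, Fintype.mem_piFinset] at hc
        have hcA : ∀ i, (c i).natAbs ≤ A := by
          intro i
          have := hc.1 i
          rw [mem_Icc] at this
          omega
        apply card_dvd_le (Algebra.norm ℤ (Dc u c))
        · rw [Ne, Algebra.norm_eq_zero_iff]
          exact hne c hc.2
        · have h1 := Dc_norm t u hu2 (2 ^ B) hB Nat.one_le_two_pow A c hcA
          rw [← hr, ← hn] at h1
          have h2 : (Algebra.norm ℤ (Dc u c)).natAbs ≤ (2 * (2 ^ B) ^ (r * A)) ^ n := by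
            exact_mod_cast h1
          refine h2.trans ?_
          calc (2 * (2 ^ B) ^ (r * A)) ^ n ≤ (2 ^ A * (2 ^ B) ^ (r * A)) ^ n := by
                apply Nat.pow_le_pow_left
                apply Nat.mul_le_mul
                · calc 2 = 2 ^ 1 := rfl
                    _ ≤ 2 ^ A := Nat.pow_le_pow_right (by norm_num) hA
                · exact le_rfl
            _ = 2 ^ (n * (1 + r * B) * A) := by
                rw [← pow_mul, ← pow_add, ← pow_mul]
                congr 1
                ring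
        · intro p hp
          rw [mem_filter] at hp
          exact ⟨(hT p hp.1).1, hp.2⟩
    _ = C.card * (n * (1 + r * B) * A) := by rw [sum_const, smul_eq_mul]
    _ ≤ _ := Nat.mul_le_mul_right _ hCcard

/-- one unit generates a field of degree at most two -/
theorem finrank_one (s : ℕ) : Module.finrank ℚ (IntermediateField.adjoin ℚ {eps s}) ≤ 2 := by
  have hroot : Polynomial.aeval (eps s)
      (Polynomial.X ^ 2 - Polynomial.C (s : ℚ) * Polynomial.X - 1 : Polynomial ℚ) = 0 := by
    simp only [map_sub, map_mul, map_pow, Polynomial.aeval_X, Polynomial.aeval_C, map_one]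
    have := eps_sq s
    simp only [map_natCast]
    linarith
  have hmon : (Polynomial.X ^ 2 - Polynomial.C (s : ℚ) * Polynomial.X - 1 :
      Polynomial ℚ).Monic := by
    monicity!
  have hint : IsIntegral ℚ (eps s) := ⟨_, hmon, by
    rw [← Polynomial.aeval_def]
    exact hroot⟩
  rw [IntermediateField.adjoin.finrank hint]
  have h1 := minpoly.min ℚ (eps s) hmon hroot
  have h2 := Polynomial.natDegree_le_natDegree h1
  refine h2.trans ?_
  compute_degree

omit [Fintype ι] in
/-- the degree of the field generated by the units -/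
theorem finrank_adj (t : ι → ℕ) (S : Finset ι) :
    Module.finrank ℚ (IntermediateField.adjoin ℚ ((fun i => eps (t i)) '' (S : Set ι))) ≤
      2 ^ S.card := by
  classical
  induction S using Finset.induction_on with
  | empty =>
    rw [Finset.coe_empty, Set.image_empty, IntermediateField.adjoin_empty,
      IntermediateField.finrank_bot]
    simp
  | insert i S hi ih =>
    rw [Finset.coe_insert, Set.image_insert_eq, Set.insert_eq, IntermediateField.adjoin_union,
      Finset.card_insert_of_notMem hi, pow_succ, mul_comm (2 ^ S.card)]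
    exact (IntermediateField.finrank_sup_le _ _).trans (Nat.mul_le_mul (finrank_one (t i)) ih)

/-- the units in the field generated by them -/
theorem exists_units (t : ι → ℕ) : ∃ (L : IntermediateField ℚ ℝ) (_ : NumberField L)
    (u : ι → (𝓞 L)ˣ), Module.finrank ℚ L ≤ 2 ^ Fintype.card ι ∧
      ∀ i, ((((u i : 𝓞 L) : L)) : ℝ) = eps (t i) := by
  classical
  set S : Set ℝ := Set.range (fun i => eps (t i)) with hS
  have hint : ∀ x ∈ S, IsIntegral ℤ x := by
    rintro x ⟨i, rfl⟩
    refine ⟨Polynomial.X ^ 2 - Polynomial.C ((t i : ℕ) : ℤ) * Polynomial.X - 1, ?_, ?_⟩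
    · monicity!
    · simp only [Polynomial.eval₂_sub, Polynomial.eval₂_pow, Polynomial.eval₂_X,
        Polynomial.eval₂_mul, Polynomial.eval₂_C, Polynomial.eval₂_one]
      have := eps_sq (t i)
      simp only [algebraMap_int_eq, eq_intCast, Int.cast_natCast]
      linarith
  have : Finite S := Set.finite_range _
  have hfd : FiniteDimensional ℚ (IntermediateField.adjoin ℚ S) :=
    IntermediateField.finiteDimensional_adjoin fun x hx => (hint x hx).tower_top
  have hnf : NumberField (IntermediateField.adjoin ℚ S) := ⟨⟩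
  refine ⟨IntermediateField.adjoin ℚ S, hnf, ?_⟩
  have hmem : ∀ i, eps (t i) ∈ IntermediateField.adjoin ℚ S := fun i =>
    IntermediateField.subset_adjoin ℚ S ⟨i, rfl⟩
  have hunit : ∀ i, ∃ w : (𝓞 (IntermediateField.adjoin ℚ S))ˣ,
      ((((w : 𝓞 (IntermediateField.adjoin ℚ S)) : IntermediateField.adjoin ℚ S)) : ℝ) = eps (t i) := by
    intro i
    have h1 : IsIntegral ℤ (⟨eps (t i), hmem i⟩ : IntermediateField.adjoin ℚ S) := by
      have h2 := hint (eps (t i)) ⟨i, rfl⟩
      exact (isIntegral_algHom_iff ((IntermediateField.adjoin ℚ S).val.restrictScalars ℤ)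
        (IntermediateField.adjoin ℚ S).val.injective).1 h2
    obtain ⟨e, he⟩ : ∃ e : 𝓞 (IntermediateField.adjoin ℚ S),
        ((e : IntermediateField.adjoin ℚ S) : ℝ) = eps (t i) := ⟨⟨⟨eps (t i), hmem i⟩, h1⟩, rfl⟩
    have h4 : e * (e - (t i : 𝓞 (IntermediateField.adjoin ℚ S))) = 1 := by
      apply RingOfIntegers.ext
      apply Subtype.ext
      push_cast
      rw [he]
      have := eps_sq (t i)
      linear_combination this
    exact ⟨⟨e, e - (t i : 𝓞 (IntermediateField.adjoin ℚ S)), h4, by rw [mul_comm]; exact h4⟩, he⟩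
  choose u hu using hunit
  refine ⟨u, ?_, hu⟩
  have h1 := finrank_adj t Finset.univ
  rw [Finset.coe_univ, Set.image_univ, Finset.card_univ] at h1
  exact h1

end field

/-- task UNI: few primes modulo which independent units generate a small group, explicitly -/
theorem uni : S_UNI := by
  intro ι _ t ht B hB A T hA hT
  classical
  obtain ⟨L, hL, u, hd, hu⟩ := exists_units t
  have hu2 : ∀ i, ((u i : 𝓞 L)) ^ 2 = t i * (u i : 𝓞 L) + 1 := by
    intro i
    apply RingOfIntegers.ext
    apply Subtype.ext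
    push_cast
    rw [hu]
    exact eps_sq (t i)
  have key := few_small_aux t u hu2 ?_ B hB A T hA hT
  · refine key.trans ?_
    apply Nat.mul_le_mul_left
    apply Nat.mul_le_mul_right
    apply Nat.mul_le_mul_right
    have h1 : Fintype.card (L →ₐ[ℚ] ℂ) = Module.finrank ℚ L := AlgHom.card ℚ L ℂ
    rw [h1]
    exact hd
  intro c hc h0
  apply hc
  funext i
  refine ht c ?_ i
  unfold Dc at h0
  rw [sub_eq_zero] at h0
  have h1 := congrArg (fun w : 𝓞 L => ((w : L) : ℝ)) h0
  rw [← show ((((1 : 𝓞 L)) : L) : ℝ) = 1 from rfl, ← h1]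
  obtain ⟨ψ, hψ⟩ : ∃ ψ : 𝓞 L →* ℝ, ∀ w : 𝓞 L, ψ w = ((w : L) : ℝ) :=
    ⟨(L.val : L →* ℝ).comp (algebraMap (𝓞 L) L : 𝓞 L →* L), fun _ => rfl⟩
  have h5 : Units.map ψ (∏ i, u i ^ c i) = ∏ i, (Units.map ψ (u i)) ^ (c i) := by
    rw [map_prod]
    simp only [map_zpow]
  have h6 : ψ ((∏ i, u i ^ c i : (𝓞 L)ˣ) : 𝓞 L) = ∏ i, eps (t i) ^ (c i) := by
    calc ψ ((∏ i, u i ^ c i : (𝓞 L)ˣ) : 𝓞 L) = ((Units.map ψ (∏ i, u i ^ c i) : ℝˣ) : ℝ) := rfl
      _ = ((∏ i, (Units.map ψ (u i)) ^ (c i) : ℝˣ) : ℝ) := by rw [h5]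
      _ = ∏ i, ((Units.map ψ (u i) : ℝˣ) : ℝ) ^ (c i) := by
          rw [Units.coe_prod]
          exact prod_congr rfl fun i _ => Units.val_zpow_eq_zpow_val _ _
      _ = _ := prod_congr rfl fun i _ => by
          rw [show ((Units.map ψ (u i) : ℝˣ) : ℝ) = ψ (u i) from rfl, hψ, hu i]
  rw [← h6, hψ]

end Pool.Agent.H482.QP
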