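import Mathlib
import Pool.Agent.H482.QP.Bad
import Pool.Agent.H482.QP.Lsp
import Pool.Agent.H482.QP.Pla
import Pool.Agent.H482.QP.Plb
import Pool.Agent.H482.QP.Uni
import Pool.Agent.H482.QP.Exq
import Pool.Agent.H482.QP.Mong
import Pool.Agent.H482.AP.Fin

/-! All but a bounded number of primes: units of large order modulo inert primes of polynomial size. -/

set_option autoImplicit false

namespace Pool.Agent.H482.QP

open Finset Filter

open Pool.Agent.Y855 (OP mem_OP)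
open Pool.Agent.H482.QO
open Pool.Agent.H482.MR (zz zz_spec)
open Pool.Agent.H482.AP (two leg gsu count_main)

/-- the unit of norm `-1` of the field of a prime `1` modulo `4`, with a bound for its size -/
theorem exists_unit : ∃ C : ℕ, ∀ q : ℕ, ∃ t y : ℕ, q.Prime → q % 4 = 1 →
    1 ≤ t ∧ t ^ 2 + 4 = q * y ^ 2 ∧ t + 1 ≤ 2 ^ (C * q ^ 4 + 3) := by
  obtain ⟨C, hC⟩ := pla
  refine ⟨C, fun q => ?_⟩
  by_cases hq : q.Prime ∧ q % 4 = 1
  · have hsq : ¬ IsSquare q := fun h => hq.1.prime.irreducible.not_isSquare h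
    obtain ⟨u, v, hv, huv, hu⟩ := hC q hsq
    obtain ⟨t, y, h1, h2, h3⟩ := plb q hq.1 hq.2 u v hv huv
    refine ⟨t, y, fun _ _ => ⟨h1, h2, ?_⟩⟩
    have h4 : u ≤ 2 ^ (C * q ^ 4) := by
      refine hu.trans (Nat.pow_le_pow_right (by norm_num) ?_)
      first
        | exact le_rfl
        | exact Nat.mul_le_mul_left _ (Nat.pow_le_pow_right hq.1.pos (by norm_num))
    have h5 : 1 ≤ 2 ^ (C * q ^ 4) := Nat.one_le_two_pow
    rw [pow_add]
    omega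
  · exact ⟨0, 0, fun h1 h2 => absurd ⟨h1, h2⟩ hq⟩

theorem alg_Q (K L M ε t x c : ℝ) (hK : 0 < K) (hL : 0 < L) (ht : 0 < t) (hc : 0 < c)
    (hct : c * (x / L ^ 2) ≤ t) (h : (1 / 4 * (L / (8 * K))) ^ 2 * (M * (ε * t) ^ 2) ≤ 12 * x * t) :
    M * (c * ε ^ 2) ≤ 12288 * K ^ 2 := by
  have h1 : c * x ≤ t * L ^ 2 := by
    rw [← mul_div_assoc, div_le_iff₀ (by positivity)] at hct
    exact hct
  have h2 : M * (c * ε ^ 2) * (L ^ 2 * t ^ 2) ≤ 12288 * K ^ 2 * (L ^ 2 * t ^ 2) := by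
    have e1 : M * (c * ε ^ 2) * (L ^ 2 * t ^ 2) =
        1024 * K ^ 2 * c * ((1 / 4 * (L / (8 * K))) ^ 2 * (M * (ε * t) ^ 2)) := by
      field_simp
      ring
    rw [e1]
    calc 1024 * K ^ 2 * c * ((1 / 4 * (L / (8 * K))) ^ 2 * (M * (ε * t) ^ 2))
        ≤ 1024 * K ^ 2 * c * (12 * x * t) := mul_le_mul_of_nonneg_left h (by positivity)
      _ = 12288 * K ^ 2 * t * (c * x) := by ring
      _ ≤ 12288 * K ^ 2 * t * (t * L ^ 2) := mul_le_mul_of_nonneg_left h1 (by positivity)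
      _ = _ := by ring
  exact le_of_mul_le_mul_right h2 (by positivity)

/-- numerical facts -/
theorem num_Q (K : ℝ) (hK : 10 ≤ K) (w C : ℕ) (hw : w = ⌈4 * K⌉₊) (e : ℝ) (he : 0 < e) :
    ∃ X : ℕ, 3 ≤ X ∧ ∀ x : ℕ, X ≤ x → 1 ≤ Real.log x ∧
      (Nat.sqrt x : ℝ) ≤ e * (x / (Real.log x) ^ 2) ∧ 2 ≤ Nat.sqrt x ∧
      ⌊(x : ℝ) ^ (1 / (10 * (w : ℝ)))⌋₊ ≤ Nat.sqrt x ∧ zz K x ≤ Nat.sqrt x ∧
      (⌊(x : ℝ) ^ (1 / (10 * (w : ℝ)))⌋₊ * zz K x) ^ 2 ≤ x ∧ 1 ≤ Nat.sqrt (zz K x) ∧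
      Real.log x / (8 * K) ≤ Real.log (Nat.sqrt (zz K x) : ℕ) ∧
      (C * ⌊(x : ℝ) ^ (1 / (10 * (w : ℝ)))⌋₊ ^ 4 + 3 : ℝ) ≤ (x : ℝ) ^ (1 / (2 * (w : ℝ))) ∧
      x ^ 2 ≤ (zz K x) ^ w ∧ 2 * (Real.log x / Real.log (zz K x)) ≤ w ∧ 2 ≤ zz K x := by
  have hK0 : 0 < K := by linarith
  have hwK : 4 * K ≤ w := by rw [hw]; exact Nat.le_ceil _
  have hw40 : (40 : ℝ) ≤ w := by linarith
  have hw0 : (0 : ℝ) < w := by linarith
  obtain ⟨X₁, hX₁3, hX₁⟩ := zz_spec K (by linarith) 16 1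
  have h1 := Pool.Agent.H482.RG.ev_saving 0 1 e le_rfl (by norm_num) he 2 (by norm_num)
  have h2 : ∀ᶠ x : ℕ in atTop, 1 ≤ Real.log (x : ℝ) :=
    (Real.tendsto_log_atTop.comp tendsto_natCast_atTop_atTop).eventually_ge_atTop _
  have h3 : ∀ᶠ x : ℕ in atTop, (C + 3 : ℝ) ≤ (x : ℝ) ^ (1 / (10 * (w : ℝ))) :=
    ((tendsto_rpow_atTop (by positivity : 0 < 1 / (10 * (w : ℝ)))).comp
      tendsto_natCast_atTop_atTop).eventually_ge_atTop _
  obtain ⟨X₂, hX₂⟩ := eventually_atTop.1 (h1.and (h2.and h3))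
  refine ⟨max X₁ (max X₂ 4), hX₁3.trans (le_max_left _ _), fun x hx => ?_⟩
  obtain ⟨b1, b2, b3, b4, -⟩ := hX₁ x ((le_max_left _ _).trans hx)
  obtain ⟨a1, a2, a3⟩ := hX₂ x (((le_max_left _ _).trans (le_max_right _ _)).trans hx)
  have hx4 : 4 ≤ x := ((le_max_right _ _).trans (le_max_right _ _)).trans hx
  have hx0 : (0 : ℝ) < x := by exact_mod_cast (by omega : 0 < x)
  have hx1 : (1 : ℝ) ≤ x := by exact_mod_cast (by omega : 1 ≤ x)
  set z := zz K x with hz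
  set Q := ⌊(x : ℝ) ^ (1 / (10 * (w : ℝ)))⌋₊ with hQ
  have hQl : (Q : ℝ) ≤ (x : ℝ) ^ (1 / (10 * (w : ℝ))) := Nat.floor_le (by positivity)
  have hzl : (z : ℝ) ≤ (x : ℝ) ^ (1 / K) := by
    rw [hz]
    unfold zz
    exact Nat.floor_le (by positivity)
  have hz16 : 16 ≤ z := by exact_mod_cast b4
  have hlz0 : 0 < Real.log z := Real.log_pos (by linarith)
  have hpow : ∀ a : ℝ, a ≤ 1 → (x : ℝ) ^ a ≤ x := by
    intro a ha
    calc (x : ℝ) ^ a ≤ (x : ℝ) ^ (1 : ℝ) := Real.rpow_le_rpow_of_exponent_le hx1 ha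
      _ = x := Real.rpow_one _
  have hk1 : 1 / (10 * (w : ℝ)) ≤ 1 / 10 := by
    apply div_le_div_of_nonneg_left (by norm_num) (by norm_num)
    linarith
  have hk2 : 1 / K ≤ 1 / 10 := div_le_div_of_nonneg_left (by norm_num) (by norm_num) hK
  have hlogx : Real.log x ≤ 2 * K * Real.log z := by
    rw [div_le_iff₀ hlz0] at b3
    exact b3
  refine ⟨a2, ?_, ?_, ?_, ?_, ?_, ?_, ?_, ?_, ?_, ?_, by omega⟩
  · rw [zero_add, one_mul] at a1
    refine le_trans ?_ a1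
    have h4 : (1 - 1 / ((2 : ℕ) : ℝ)) = 1 / 2 := by norm_num
    rw [h4, ← Real.sqrt_eq_rpow]
    exact Real.nat_sqrt_le_real_sqrt
  · rw [Nat.le_sqrt]
    omega
  · rw [Nat.le_sqrt]
    have h4 : ((Q * Q : ℕ) : ℝ) ≤ x := by
      push_cast
      calc (Q : ℝ) * Q ≤ (x : ℝ) ^ (1 / (10 * (w : ℝ))) * (x : ℝ) ^ (1 / (10 * (w : ℝ))) :=
            mul_le_mul hQl hQl (Nat.cast_nonneg _) (by positivity)
        _ = (x : ℝ) ^ (1 / (10 * (w : ℝ)) + 1 / (10 * (w : ℝ))) := (Real.rpow_add hx0 _ _).symm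
        _ ≤ x := hpow _ (by linarith)
    exact_mod_cast h4
  · rw [Nat.le_sqrt]
    have h4 : ((z * z : ℕ) : ℝ) ≤ x := by
      push_cast
      calc (z : ℝ) * z ≤ (x : ℝ) ^ (1 / K) * (x : ℝ) ^ (1 / K) :=
            mul_le_mul hzl hzl (Nat.cast_nonneg _) (by positivity)
        _ = (x : ℝ) ^ (1 / K + 1 / K) := (Real.rpow_add hx0 _ _).symm
        _ ≤ x := hpow _ (by linarith)
    exact_mod_cast h4
  · have h4 : (((Q * z) ^ 2 : ℕ) : ℝ) ≤ x := by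
      push_cast
      have h5 : (Q : ℝ) * z ≤ (x : ℝ) ^ (1 / (10 * (w : ℝ)) + 1 / K) := by
        rw [Real.rpow_add hx0]
        exact mul_le_mul hQl hzl (Nat.cast_nonneg _) (by positivity)
      calc ((Q : ℝ) * z) ^ 2 ≤ ((x : ℝ) ^ (1 / (10 * (w : ℝ)) + 1 / K)) ^ 2 :=
            pow_le_pow_left₀ (by positivity) h5 2
        _ = (x : ℝ) ^ ((1 / (10 * (w : ℝ)) + 1 / K) * 2) := by
            rw [Real.rpow_mul hx0.le]
            norm_num
        _ ≤ x := hpow _ (by linarith)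
    exact_mod_cast h4
  · rw [Nat.le_sqrt]
    omega
  · have hs4 : 4 ≤ Nat.sqrt z := by
      rw [Nat.le_sqrt]
      omega
    have hzs : z ≤ (Nat.sqrt z) ^ 4 := by
      have h4 := Nat.lt_succ_sqrt z
      have h5 : (Nat.sqrt z).succ * (Nat.sqrt z).succ ≤ (Nat.sqrt z) ^ 4 := by
        have h6 : (Nat.sqrt z).succ ≤ (Nat.sqrt z) ^ 2 := by
          rw [Nat.succ_eq_add_one]
          nlinarith
        calc (Nat.sqrt z).succ * (Nat.sqrt z).succ ≤ (Nat.sqrt z) ^ 2 * (Nat.sqrt z) ^ 2 :=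
              Nat.mul_le_mul h6 h6
          _ = _ := by ring
      omega
    have hs0 : (0 : ℝ) < Nat.sqrt z := by exact_mod_cast (by omega : 0 < Nat.sqrt z)
    have h4 : Real.log z ≤ 4 * Real.log (Nat.sqrt z : ℕ) := by
      have h5 : (z : ℝ) ≤ (Nat.sqrt z : ℝ) ^ 4 := by exact_mod_cast hzs
      have h6 := Real.log_le_log (by linarith) h5
      rw [Real.log_pow] at h6
      push_cast at h6
      exact h6
    rw [div_le_iff₀ (by positivity)]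
    calc Real.log x ≤ 2 * K * Real.log z := hlogx
      _ ≤ 2 * K * (4 * Real.log (Nat.sqrt z : ℕ)) := mul_le_mul_of_nonneg_left h4 (by positivity)
      _ = _ := by ring
  · have h4 : (Q : ℝ) ^ 4 ≤ ((x : ℝ) ^ (1 / (10 * (w : ℝ)))) ^ 4 :=
      pow_le_pow_left₀ (Nat.cast_nonneg _) hQl 4
    set X := (x : ℝ) ^ (1 / (10 * (w : ℝ))) with hX
    have hX1 : 1 ≤ X := Real.one_le_rpow hx1 (by positivity)
    have h5 : (x : ℝ) ^ (1 / (2 * (w : ℝ))) = X ^ 5 := by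
      rw [hX, ← Real.rpow_natCast, ← Real.rpow_mul hx0.le]
      congr 1
      push_cast
      field_simp
      norm_num
    rw [h5]
    have hC0 : (0 : ℝ) ≤ C := Nat.cast_nonneg _
    have hX4 : 1 ≤ X ^ 4 := one_le_pow₀ hX1
    calc (C : ℝ) * (Q : ℝ) ^ 4 + 3 ≤ C * X ^ 4 + 3 * X ^ 4 := by
          have := mul_le_mul_of_nonneg_left h4 hC0
          linarith
      _ = (C + 3) * X ^ 4 := by ring
      _ ≤ X * X ^ 4 := mul_le_mul_of_nonneg_right a3 (by positivity)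
      _ = X ^ 5 := by ring
  · have h4 : Real.log ((x : ℝ) ^ 2) ≤ Real.log ((z : ℝ) ^ w) := by
      rw [Real.log_pow, Real.log_pow]
      push_cast
      calc 2 * Real.log x ≤ 2 * (2 * K * Real.log z) := by linarith
        _ = 4 * K * Real.log z := by ring
        _ ≤ w * Real.log z := mul_le_mul_of_nonneg_right hwK hlz0.le
    have h5 := (Real.log_le_log_iff (by positivity) (by positivity)).1 h4
    exact_mod_cast h5
  · linarith

open Classical in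
/-- the primes which are inert and good for all elements of `A` -/
noncomputable def GdP (x z : ℕ) (t : ℕ → ℕ) (A : Finset ℕ) : Finset ℕ :=
  (Tp x z).filter (fun p : ℕ => ∀ q ∈ A, jacobiSym q p = -1 ∧ Good (t q) p)

theorem mainQ (t y : ℕ → ℕ) (C : ℕ) (hty : ∀ q : ℕ, q.Prime → q % 4 = 1 →
    1 ≤ t q ∧ (t q) ^ 2 + 4 = q * (y q) ^ 2 ∧ t q + 1 ≤ 2 ^ (C * q ^ 4 + 3)) :
    ∃ (κ K c : ℝ), 0 < κ ∧ κ ≤ 1 / 10 ∧ 10 ≤ K ∧ 0 < c ∧ ∀ (r : ℕ) (ε : ℝ),
    0 < ε → ∃ N x₀ : ℕ, 3 ≤ x₀ ∧ ∀ x : ℕ, x₀ ≤ x →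
    c * (x / (Real.log x) ^ 2) ≤ (Tp x (zz K x)).card ∧
    ∃ E : Finset ℕ, E.card ≤ N ∧ (∀ m ∈ E, 2 ≤ m) ∧
      ∀ A : Finset ℕ, A.card ≤ r → (∀ q ∈ A, q.Prime ∧ q % 4 = 1) →
      ((∏ q ∈ A, q : ℕ) : ℝ) ≤ (x : ℝ) ^ κ → (∀ B ⊆ A, ∏ q ∈ B, q ∉ E) →
      |(((Tp x (zz K x)).filter (fun p : ℕ => ∀ q ∈ A, jacobiSym q p = -1)).card : ℝ) -
        (1 / 2) ^ A.card * ((Tp x (zz K x)).card : ℝ)| ≤ ε * ((Tp x (zz K x)).card : ℝ) ∧
      ((Tp x (zz K x)).card : ℝ) * ((1 / 2) ^ A.card - 2 * ε) ≤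
        ((GdP x (zz K x) t A).card : ℝ) := by
  classical
  obtain ⟨K, hK, hlow⟩ := NSp_lower
  obtain ⟨c, hc, hlow⟩ := hlow 19 24 (allowed_24 19 (Or.inl rfl))
  obtain ⟨xA, hxA⟩ := eventually_atTop.1 hlow
  obtain ⟨w, hw⟩ : ∃ w : ℕ, w = ⌈4 * K⌉₊ := ⟨_, rfl⟩
  have hwK : 4 * K ≤ w := by rw [hw]; exact Nat.le_ceil _
  have hw40 : (40 : ℝ) ≤ w := by linarith
  have hw0 : (0 : ℝ) < w := by linarith
  have hw2 : 2 ≤ w := by
    have : (2 : ℝ) ≤ w := by linarith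
    exact_mod_cast this
  obtain ⟨κ, hκ⟩ : ∃ κ : ℝ, κ = 1 / (10 * (w : ℝ)) := ⟨_, rfl⟩
  have hκ0 : 0 < κ := by rw [hκ]; positivity
  refine ⟨κ, K, c, hκ0, ?_, hK, hc, ?_⟩
  · rw [hκ]
    apply div_le_div_of_nonneg_left (by norm_num) (by norm_num)
    linarith
  intro r ε hε
  have hK0 : 0 < K := by linarith
  obtain ⟨ε₁, hε₁⟩ : ∃ ε₁ : ℝ, ε₁ = ε / 4 := ⟨_, rfl⟩
  have hε₁0 : 0 < ε₁ := by rw [hε₁]; positivity
  obtain ⟨η, hη⟩ : ∃ η : ℝ, η = ε / (4 * ((r : ℝ) + 1)) := ⟨_, rfl⟩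
  have hr0 : (0 : ℝ) ≤ r := Nat.cast_nonneg r
  have hη0 : 0 < η := by rw [hη]; positivity
  obtain ⟨M₀, hM₀⟩ : ∃ M₀ : ℕ, M₀ = ⌈12288 * K ^ 2 / (c * ε₁ ^ 2)⌉₊ + 1 := ⟨_, rfl⟩
  have hM₀' : 12288 * K ^ 2 / (c * ε₁ ^ 2) < M₀ := by
    rw [hM₀]
    push_cast
    have := Nat.le_ceil (12288 * K ^ 2 / (c * ε₁ ^ 2))
    linarith
  obtain ⟨Y, hY⟩ : ∃ Y : ℕ, Y = 2 * (r * M₀) + 2 := ⟨_, rfl⟩
  obtain ⟨m₀, xB, hB⟩ := few_BP (exq uni) w w hw2 η c hη0 hc
  obtain ⟨X₂, hX₂3, hX₂⟩ := num_Q K hK w C hw (ε / 8 * c) (by positivity)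
  refine ⟨M₀ + m₀ + Y, max (max xA xB) X₂, hX₂3.trans (le_max_right _ _), ?_⟩
  intro x hx
  have hxA' : xA ≤ x := ((le_max_left _ _).trans (le_max_left _ _)).trans hx
  have hxB : xB ≤ x := ((le_max_right _ _).trans (le_max_left _ _)).trans hx
  have hxX₂ : X₂ ≤ x := (le_max_right _ _).trans hx
  have hx3 : 3 ≤ x := hX₂3.trans hxX₂
  have hx0 : (0 : ℝ) < x := by exact_mod_cast (by omega : 0 < x)
  have hx1 : (1 : ℝ) ≤ x := by exact_mod_cast (by omega : 1 ≤ x)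
  have hlowx : c * (x / (Real.log x) ^ 2) ≤ (Tp x (zz K x)).card := hxA x hxA'
  obtain ⟨d1, d2, d3, d4, d5, d6, d7, d8, d9, d10, d11, d12⟩ := hX₂ x hxX₂
  refine ⟨hlowx, ?_⟩
  obtain ⟨z, hz⟩ : ∃ z : ℕ, z = zz K x := ⟨_, rfl⟩
  rw [← hz] at hlowx d5 d6 d7 d8 d10 d11 d12 ⊢
  rw [← hκ] at d4 d6 d9
  obtain ⟨Q, hQ⟩ : ∃ Q : ℕ, Q = ⌊(x : ℝ) ^ κ⌋₊ := ⟨_, rfl⟩
  rw [← hQ] at d4 d6 d9
  obtain ⟨H, hH⟩ : ∃ H : ℕ, H = Nat.sqrt x := ⟨_, rfl⟩
  rw [← hH] at d2 d3 d4 d5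
  have hL0 : 0 < Real.log x := by linarith
  obtain ⟨T, hT⟩ : ∃ T : Finset ℕ, T = Tp x z := ⟨_, rfl⟩
  have hu0 : 0 < c * (x / (Real.log x) ^ 2) := by positivity
  have ht0 : 0 < ((Tp x z).card : ℝ) := lt_of_lt_of_le hu0 hlowx
  have hHt : (H : ℝ) ≤ ε / 8 * ((Tp x z).card : ℝ) := by
    refine d2.trans ?_
    have h1 : ε / 8 * c * (x / Real.log x ^ 2) = ε / 8 * (c * (x / Real.log x ^ 2)) := by ring
    rw [h1]
    exact mul_le_mul_of_nonneg_left hlowx (by positivity)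
  -- the exceptional moduli
  obtain ⟨SS, hSS⟩ : ∃ SS : Finset ℕ, SS = (Icc 2 Q).filter (fun D => Squarefree D ∧
      Odd D ∧ D.primeFactors.card ≤ r ∧ (∀ p ∈ D.primeFactors, Y < p) ∧
      ε₁ * ((Tp x z).card : ℝ) ≤
        |∑ p ∈ (Tp x z).filter (fun p => H < p), ((jacobiSym p D : ℤ) : ℝ)|) := ⟨_, rfl⟩
  have hsuppT : ∀ n ∈ (Tp x z).filter (fun p => H < p), ∀ l : ℕ, l.Prime → 3 ≤ l → l ≤ z →
      n % l ≠ 0 ∧ n % l ≠ l - 1 := by
    intro n hn l hl hl3 hlz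
    rw [mem_filter, mem_Tp] at hn
    obtain ⟨⟨-, h4, -, h5⟩, h6⟩ := hn
    constructor
    · intro h
      have h7 := (Nat.prime_dvd_prime_iff_eq hl h4).1 (Nat.dvd_of_mod_eq_zero h)
      omega
    · intro h
      apply h5 l (mem_OP.2 ⟨hl, hl3, hlz⟩)
      apply Nat.dvd_of_mod_eq_zero
      rw [Nat.add_mod, h, Nat.mod_eq_of_lt hl.one_lt, Nat.sub_add_cancel (by omega), Nat.mod_self]
  have hsubT : (Tp x z).filter (fun p => H < p) ⊆ Icc 1 x := by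
    intro p hp
    rw [mem_filter, mem_Tp] at hp
    exact mem_Icc.2 hp.1.1
  have hSSc : SS.card < M₀ := by
    by_contra hcon
    push Not at hcon
    obtain ⟨S, hS, hScard⟩ := exists_subset_card_eq hcon
    have h1 := few_DP (lsap (indp two (monp mong) leg)) gsu x Q z (Nat.sqrt z) M₀ Y r
      ((Tp x z).filter (fun p => H < p)) ((Tp x z).card : ℝ) ε₁ hsubT hsuppT d6 d7 (Nat.sqrt_le z) S
      (by
        intro D hD
        have h2 := hS hD
        rw [hSS] at h2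
        simp only [mem_filter, mem_Icc] at h2
        exact ⟨h2.2.1, h2.2.2.1, h2.1.2, h2.2.2.2.1, h2.2.2.2.2.1⟩) hScard.le (by omega) (by omega)
      (by exact_mod_cast card_le_card (filter_subset _ _)) ht0.le hε₁0.le (by
        intro D hD
        have h2 := hS hD
        rw [hSS] at h2
        simp only [mem_filter, mem_Icc] at h2
        exact h2.2.2.2.2.2)
    rw [hScard] at h1
    have h5 : (1 / 4 * (Real.log x / (8 * K))) ^ 2 ≤ (1 / 4 * Real.log (Nat.sqrt z : ℕ)) ^ 2 := by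
      apply pow_le_pow_left₀ (by positivity)
      linarith
    have h6 : (1 / 4 * (Real.log x / (8 * K))) ^ 2 * (M₀ * (ε₁ * ((Tp x z).card : ℝ)) ^ 2) ≤
        12 * x * ((Tp x z).card : ℝ) :=
      (mul_le_mul_of_nonneg_right h5 (by positivity)).trans h1
    have h9 := alg_Q K (Real.log x) M₀ ε₁ ((Tp x z).card : ℝ) x c hK0 hL0 ht0 hc hlowx h6
    rw [div_lt_iff₀ (by positivity)] at hM₀'
    linarith
  obtain ⟨EB, hEB⟩ : ∃ EB : Finset ℕ, EB = (Icc 2 Q).filter (fun q : ℕ => q.Prime ∧ q % 4 = 1 ∧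
      η * ((Tp x z).card : ℝ) < ((BadP x z (t q)).card : ℝ)) := ⟨_, rfl⟩
  have hEBc : EB.card < m₀ := by
    refine hB x hxB z d12 d11 d10 hlowx ht0 t y (C * Q ^ 4 + 3) (by push_cast; exact d9) EB ?_
    intro q hq
    rw [hEB, mem_filter, mem_Icc] at hq
    obtain ⟨⟨hq2, hqQ⟩, hqp, hq4, hqb⟩ := hq
    obtain ⟨h1, h2, h3⟩ := hty q hqp hq4
    refine ⟨hqp, h1, h2, h3.trans (Nat.pow_le_pow_right (by norm_num) ?_), hqb⟩
    have := Nat.mul_le_mul_left C (Nat.pow_le_pow_left hqQ 4)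
    omega
  refine ⟨SS ∪ EB ∪ Icc 2 Y, ?_, ?_, ?_⟩
  · have c1 := card_union_le (SS ∪ EB) (Icc 2 Y)
    have c2 := card_union_le SS EB
    have c6 : (Icc 2 Y).card ≤ Y := by rw [Nat.card_Icc]; omega
    omega
  · intro m hm
    rw [mem_union, mem_union] at hm
    rcases hm with (h | h) | h
    · rw [hSS] at h
      exact (mem_Icc.1 (mem_filter.1 h).1).1
    · rw [hEB] at h
      exact (mem_Icc.1 (mem_filter.1 h).1).1
    · exact (mem_Icc.1 h).1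
  intro A hAr hAp hAx hAE
  have hAQ : ∏ q ∈ A, q ≤ Q := by rw [hQ]; exact Nat.le_floor hAx
  have hprod0 : ∏ q ∈ A, q ≠ 0 := prod_ne_zero_iff.2 fun q hq => (hAp q hq).1.ne_zero
  have hqQ : ∀ q ∈ A, q ≤ Q := fun q hq =>
    (Nat.le_of_dvd (Nat.pos_of_ne_zero hprod0) (dvd_prod_of_mem _ hq)).trans hAQ
  have hnot : ∀ q ∈ A, q ∉ SS ∪ EB ∪ Icc 2 Y := by
    intro q hq
    have h1 := hAE {q} (singleton_subset_iff.2 hq)
    rwa [prod_singleton] at h1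
  have hYq : ∀ q ∈ A, Y < q := by
    intro q hq
    by_contra hcon
    apply hnot q hq
    rw [mem_union]
    exact Or.inr (mem_Icc.2 ⟨(hAp q hq).1.two_le, by omega⟩)
  have hbad : ∀ q ∈ A, ((BadP x z (t q)).card : ℝ) ≤ η * ((Tp x z).card : ℝ) := by
    intro q hq
    by_contra hcon
    push Not at hcon
    apply hnot q hq
    rw [mem_union, mem_union]
    left; right
    rw [hEB, mem_filter]
    exact ⟨mem_Icc.2 ⟨(hAp q hq).1.two_le, hqQ q hq⟩, (hAp q hq).1, (hAp q hq).2, hcon⟩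
  have hX : ∀ B ⊆ A, B.Nonempty →
      |∑ p ∈ (Tp x z).filter (fun p => H < p), ((jacobiSym p (∏ q ∈ B, q) : ℤ) : ℝ)| ≤
        ε₁ * ((Tp x z).card : ℝ) := by
    intro B hBA hBn
    by_contra hcon
    push Not at hcon
    apply hAE B hBA
    have hBp : ∀ q ∈ B, q.Prime := fun q hq => (hAp q (hBA hq)).1
    have hD0 : ∏ q ∈ B, q ≠ 0 := prod_ne_zero_iff.2 fun q hq => (hBp q hq).ne_zero
    have hpf : (∏ q ∈ B, q).primeFactors = B := Nat.primeFactors_prod hBp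
    have hsqf : Squarefree (∏ q ∈ B, q) := by
      refine Finset.squarefree_prod_of_pairwise_isCoprime (fun a ha b hb hab ↦ ?_) fun p hp => ?_
      · exact Nat.coprime_iff_isRelPrime.mp ((Nat.coprime_primes (hBp a ha) (hBp b hb)).mpr hab)
      · exact (hBp p hp).squarefree
    have hodd : Odd (∏ q ∈ B, q) := by
      apply Finset.prod_induction _ Odd (fun a b ha hb => ha.mul hb) odd_one
      intro q hq
      have h1 := hYq q (hBA hq)
      exact (hBp q hq).odd_of_ne_two (by omega)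
    have hle : ∏ q ∈ B, q ≤ Q := by
      refine le_trans ?_ hAQ
      exact Nat.le_of_dvd (Nat.pos_of_ne_zero hprod0) (prod_dvd_prod_of_subset _ _ _ hBA)
    have h2le : 2 ≤ ∏ q ∈ B, q := by
      obtain ⟨q, hq⟩ := hBn
      exact (hBp q hq).two_le.trans (Nat.le_of_dvd (Nat.pos_of_ne_zero hD0) (dvd_prod_of_mem _ hq))
    have hmem : ∏ q ∈ B, q ∈ SS := by
      rw [hSS]
      simp only [mem_filter, mem_Icc]
      rw [hpf]
      exact ⟨⟨h2le, hle⟩, hsqf, hodd, (card_le_card hBA).trans hAr, fun p hp => hYq p (hBA hp),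
        hcon.le⟩
    rw [mem_union, mem_union]
    exact Or.inl (Or.inl hmem)
  have hHq : ∀ q ∈ A, q ≤ H := fun q hq => (hqQ q hq).trans d4
  have hA2 : ∀ q ∈ A, q.Prime ∧ 2 < q := fun q hq => ⟨(hAp q hq).1, by
    have := hYq q hq
    omega⟩
  have hcm := count_main A hA2 ((Tp x z).filter (fun p => H < p)) 3 (Or.inr rfl) (by
    intro p hp
    rw [mem_filter, mem_Tp] at hp
    obtain ⟨⟨-, h4, h5, -⟩, h6⟩ := hp
    refine ⟨h4, by omega, by omega, fun q hq => ?_⟩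
    have := hHq q hq
    omega) (ε₁ * ((Tp x z).card : ℝ)) (by positivity) hX
  -- the small primes
  have hV : ((Tp x z).filter (fun p => ¬ H < p)).card ≤ H := by
    have h2 : (Tp x z).filter (fun p => ¬ H < p) ⊆ Icc 1 H := by
      intro p hp
      rw [mem_filter, mem_Tp] at hp
      exact mem_Icc.2 ⟨hp.1.1.1, by omega⟩
    have h3 := card_le_card h2
    rwa [Nat.card_Icc, Nat.add_sub_cancel] at h3
  have hbel : ((Tp x z).card : ℝ) ≤ (((Tp x z).filter (fun p => H < p)).card : ℝ) + H := by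
    have h1 : (Tp x z).card ≤ ((Tp x z).filter (fun p => H < p)).card + H := by
      rw [← card_filter_add_card_filter_not (s := Tp x z) (fun p => H < p)]
      omega
    exact_mod_cast h1
  have hsub : (((Tp x z).filter (fun p => H < p)).card : ℝ) ≤ ((Tp x z).card : ℝ) := by
    exact_mod_cast card_le_card (filter_subset _ _)
  obtain ⟨J, hJ⟩ : ∃ J : Finset ℕ, J = (Tp x z).filter (fun p : ℕ => ∀ q ∈ A, jacobiSym q p = -1) :=
    ⟨_, rfl⟩
  obtain ⟨J', hJ'⟩ : ∃ J' : Finset ℕ, J' = ((Tp x z).filter (fun p => H < p)).filter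
      (fun p : ℕ => ∀ q ∈ A, jacobiSym q p = -1) := ⟨_, rfl⟩
  have hJJ' : J' ⊆ J := by
    rw [hJ, hJ']
    exact filter_subset_filter _ (filter_subset _ _)
  have hJ1 : (J.card : ℝ) ≤ (J'.card : ℝ) + H := by
    have h1 : J ⊆ J' ∪ (Tp x z).filter (fun p => ¬ H < p) := by
      intro p hp
      rw [hJ, mem_filter] at hp
      rw [mem_union, hJ', mem_filter, mem_filter, mem_filter]
      by_cases h : H < p
      · exact Or.inl ⟨⟨hp.1, h⟩, hp.2⟩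
      · exact Or.inr ⟨hp.1, h⟩
    have h2 := (card_le_card h1).trans (card_union_le _ _)
    have h3 : J.card ≤ J'.card + H := by omega
    exact_mod_cast h3
  have hJ2 : (J'.card : ℝ) ≤ J.card := by exact_mod_cast card_le_card hJJ'
  rw [← hJ'] at hcm
  have hpow : (0 : ℝ) ≤ (1 / 2) ^ A.card ∧ ((1 : ℝ) / 2) ^ A.card ≤ 1 :=
    ⟨by positivity, pow_le_one₀ (by norm_num) (by norm_num)⟩
  have hH0 : (0 : ℝ) ≤ H := Nat.cast_nonneg H
  have hlast : |(1 / 2) ^ A.card * (((Tp x z).filter (fun p => H < p)).card : ℝ) -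
      (1 / 2) ^ A.card * ((Tp x z).card : ℝ)| ≤ H := by
    rw [← mul_sub, abs_mul, abs_of_nonneg hpow.1]
    have h1 : |(((Tp x z).filter (fun p => H < p)).card : ℝ) - ((Tp x z).card : ℝ)| ≤ H := by
      rw [abs_le]
      constructor <;> linarith
    calc ((1 : ℝ) / 2) ^ A.card *
          |(((Tp x z).filter (fun p => H < p)).card : ℝ) - ((Tp x z).card : ℝ)|
        ≤ 1 * H := mul_le_mul hpow.2 h1 (abs_nonneg _) (by norm_num)
      _ = H := one_mul _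
  have hd1 := abs_le.1 hcm
  have hd3 := abs_le.1 hlast
  have hεt : 0 < ε * ((Tp x z).card : ℝ) := mul_pos hε ht0
  rw [hε₁] at hd1
  have hfirst : |(J.card : ℝ) - (1 / 2) ^ A.card * ((Tp x z).card : ℝ)| ≤
      ε * ((Tp x z).card : ℝ) := by
    rw [abs_le]
    constructor <;> linarith
  refine ⟨by rw [← hJ]; exact hfirst, ?_⟩
  -- the good primes
  obtain ⟨G, hG⟩ : ∃ G : Finset ℕ, G = GdP x z t A := ⟨_, rfl⟩
  rw [← hG]
  have hcov : J ⊆ G ∪ A.biUnion (fun q => BadP x z (t q)) := by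
    intro p hp
    rw [hJ, mem_filter] at hp
    rw [mem_union]
    by_cases h : p ∈ G
    · exact Or.inl h
    right
    unfold GdP at hG
    rw [hG, mem_filter] at h
    push Not at h
    obtain ⟨q, hq, h1⟩ := h hp.1
    have h1' := h1 (hp.2 q hq)
    unfold Good at h1'
    push Not at h1'
    obtain ⟨l, hl, hl3, hlp, hln⟩ := h1'
    rw [mem_biUnion]
    refine ⟨q, hq, ?_⟩
    unfold BadP
    rw [mem_filter]
    refine ⟨hp.1, l, ?_, hl3, hln⟩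
    unfold LFp
    rw [mem_filter, Nat.mem_primeFactors]
    refine ⟨⟨hl, hlp, by omega⟩, ?_⟩
    by_contra hcon
    have h2 := (mem_Tp.1 hp.1).2.2.2
    exact h2 l (mem_OP.2 ⟨hl, hl3, by omega⟩) hlp
  have hsumB : ∑ q ∈ A, ((BadP x z (t q)).card : ℝ) ≤ ε / 4 * ((Tp x z).card : ℝ) := by
    calc ∑ q ∈ A, ((BadP x z (t q)).card : ℝ) ≤ ∑ _q ∈ A, η * ((Tp x z).card : ℝ) :=
          sum_le_sum hbad
      _ = A.card * (η * ((Tp x z).card : ℝ)) := by rw [sum_const, nsmul_eq_mul]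
      _ ≤ r * (η * ((Tp x z).card : ℝ)) := by
          have h1 : (A.card : ℝ) ≤ r := by exact_mod_cast hAr
          exact mul_le_mul_of_nonneg_right h1 (by positivity)
      _ ≤ ε / 4 * ((Tp x z).card : ℝ) := by
          have h1 : (r : ℝ) * η ≤ ε / 4 := by
            rw [hη]
            rw [show (r : ℝ) * (ε / (4 * ((r : ℝ) + 1))) = (r / (r + 1)) * (ε / 4) by
              field_simp]
            have h2 : (r : ℝ) / (r + 1) ≤ 1 := by
              rw [div_le_one (by positivity)]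
              linarith
            calc (r : ℝ) / (r + 1) * (ε / 4) ≤ 1 * (ε / 4) :=
                  mul_le_mul_of_nonneg_right h2 (by positivity)
              _ = ε / 4 := one_mul _
          calc (r : ℝ) * (η * ((Tp x z).card : ℝ)) = r * η * ((Tp x z).card : ℝ) := by ring
            _ ≤ _ := mul_le_mul_of_nonneg_right h1 ht0.le
  have hcard : (J.card : ℝ) ≤ (G.card : ℝ) + ∑ q ∈ A, ((BadP x z (t q)).card : ℝ) := by
    have h1 := (card_le_card hcov).trans ((card_union_le _ _).trans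
      (Nat.add_le_add_left card_biUnion_le _))
    exact_mod_cast h1
  have hd4 := abs_le.1 hfirst
  have : ((Tp x z).card : ℝ) * ((1 / 2) ^ A.card - 2 * ε) =
      (1 / 2) ^ A.card * ((Tp x z).card : ℝ) - 2 * (ε * ((Tp x z).card : ℝ)) := by ring
  rw [this]
  linarith

end Pool.Agent.H482.QP
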