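import Mathlib
import Pool.Agent.H482.QP.Fin
import Pool.Agent.H482.AP.Cor

/-! The least prime with a unit of large order. -/

set_option autoImplicit false

namespace Pool.Agent.H482.QP

open Finset Filter

open Pool.Agent.H482.QO
open Pool.Agent.H482.MR (zz)
open Pool.Agent.H482.AP (cover)

open Classical in
/-- the number of the inert primes `p ≤ y`, `p ≡ 3 mod 8`, modulo which the unit has a large order -/
noncomputable def Gn (t : ℕ → ℕ) (q y : ℕ) : ℕ :=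
  ((Icc 1 y).filter (fun p : ℕ => p.Prime ∧ p % 8 = 3 ∧ jacobiSym q p = -1 ∧ Good (t q) p)).card

theorem Gn_mono (t : ℕ → ℕ) (q : ℕ) {y y' : ℕ} (h : y ≤ y') : Gn t q y ≤ Gn t q y' := by
  classical
  unfold Gn
  apply card_le_card
  intro p hp
  rw [mem_filter, mem_Icc] at hp ⊢
  exact ⟨⟨hp.1.1, hp.1.2.trans h⟩, hp.2⟩

theorem Gn_ge (t : ℕ → ℕ) (q x z : ℕ) : (GdP x z t {q}).card ≤ Gn t q x := by
  classical
  unfold Gn GdP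
  apply card_le_card
  intro p hp
  rw [mem_filter, mem_Tp] at hp
  rw [mem_filter, mem_Icc]
  obtain ⟨⟨h1, h2, h3, -⟩, h4⟩ := hp
  exact ⟨h1, h2, by omega, (h4 q (mem_singleton_self q)).1, (h4 q (mem_singleton_self q)).2⟩

/-- numerical facts -/
theorem num_yQ (κ c : ℝ) (X C₀ : ℕ) (hκ : 0 < κ) (hκ10 : κ ≤ 1 / 10) (hc : 0 < c)
    (hC : 2 ≤ C₀ * κ) : ∃ y₀ : ℝ, 4 ≤ y₀ ∧ ∀ y : ℝ, y₀ ≤ y →
      X ≤ ⌊y ^ C₀⌋₊ ∧ y ^ (3 / 2 : ℝ) ≤ ((⌊y ^ C₀⌋₊ : ℕ) : ℝ) ^ κ ∧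
      y ^ 3 ≤ 1 / 4 * (c * ((⌊y ^ C₀⌋₊ : ℕ) / (Real.log (⌊y ^ C₀⌋₊ : ℕ)) ^ 2)) := by
  have hC20 : 20 ≤ C₀ := by
    have h1 : (20 : ℝ) ≤ C₀ := by
      have h2 : (C₀ : ℝ) * κ ≤ C₀ * (1 / 10) := mul_le_mul_of_nonneg_left hκ10 (Nat.cast_nonneg _)
      linarith
    exact_mod_cast h1
  have hlog : ∀ᶠ n : ℕ in atTop, (Real.log (n : ℝ)) ^ 2 ≤ (n : ℝ) ^ (1 / 2 : ℝ) := by
    have h1 : ∀ᶠ t : ℝ in atTop, ‖Real.log t‖ ≤ 1 * ‖t ^ (1 / 4 : ℝ)‖ :=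
      (isLittleO_log_rpow_atTop (by norm_num : (0 : ℝ) < 1 / 4)).bound one_pos
    have h2 : ∀ᶠ t : ℝ in atTop, (Real.log t) ^ 2 ≤ t ^ (1 / 2 : ℝ) := by
      filter_upwards [h1, eventually_ge_atTop 1] with t a1 a3
      have ht0 : 0 < t := by linarith
      have hl0 : 0 ≤ Real.log t := Real.log_nonneg a3
      rw [one_mul, Real.norm_of_nonneg hl0, Real.norm_of_nonneg (by positivity)] at a1
      calc (Real.log t) ^ 2 ≤ (t ^ (1 / 4 : ℝ)) ^ 2 := pow_le_pow_left₀ hl0 a1 2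
        _ = t ^ (1 / 2 : ℝ) := by
            rw [← Real.rpow_natCast, ← Real.rpow_mul ht0.le]
            norm_num
    exact tendsto_natCast_atTop_atTop.eventually h2
  obtain ⟨n₀, hn₀⟩ := eventually_atTop.1 hlog
  refine ⟨max 4 (max (8 / c) (max ((X : ℝ) + 1) ((n₀ : ℝ) + 4))), le_max_left _ _, fun y hy => ?_⟩
  have hy4 : 4 ≤ y := (le_max_left _ _).trans hy
  have hyc : 8 / c ≤ y := ((le_max_left _ _).trans (le_max_right _ _)).trans hy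
  have hyX : (X : ℝ) + 1 ≤ y :=
    ((le_max_left _ _).trans ((le_max_right _ _).trans (le_max_right _ _))).trans hy
  have hyn : (n₀ : ℝ) + 4 ≤ y :=
    ((le_max_right _ _).trans ((le_max_right _ _).trans (le_max_right _ _))).trans hy
  have hy1 : 1 ≤ y := by linarith
  have hy0 : 0 < y := by linarith
  have hself : y ≤ y ^ C₀ := le_self_pow₀ hy1 (by omega)
  obtain ⟨n, hn⟩ : ∃ n : ℕ, n = ⌊y ^ C₀⌋₊ := ⟨_, rfl⟩
  rw [← hn]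
  have hn1 : y ^ C₀ / 2 ≤ n := by
    have h1 := Nat.lt_floor_add_one (y ^ C₀)
    rw [← hn] at h1
    linarith
  have hXn : X ≤ n := by
    rw [hn]
    apply Nat.le_floor
    linarith
  have hnn : n₀ ≤ n := by
    rw [hn]
    apply Nat.le_floor
    linarith
  have hl := hn₀ n hnn
  have hn2 : (2 : ℝ) ≤ n := by linarith
  have hn0 : (0 : ℝ) < n := by linarith
  have hlog0 : 0 < Real.log n := Real.log_pos (by linarith)
  refine ⟨hXn, ?_, ?_⟩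
  · have h1 : (y ^ C₀ / 2) ^ κ ≤ (n : ℝ) ^ κ := Real.rpow_le_rpow (by positivity) hn1 hκ.le
    refine le_trans ?_ h1
    rw [Real.div_rpow (by positivity) (by norm_num)]
    have h2 : (2 : ℝ) ^ κ ≤ 2 := by
      calc (2 : ℝ) ^ κ ≤ (2 : ℝ) ^ (1 : ℝ) :=
            Real.rpow_le_rpow_of_exponent_le (by norm_num) (by linarith)
        _ = 2 := Real.rpow_one _
    have h3 : y ^ (2 : ℝ) ≤ (y ^ C₀) ^ κ := by
      rw [← Real.rpow_natCast y C₀, ← Real.rpow_mul hy0.le]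
      exact Real.rpow_le_rpow_of_exponent_le hy1 hC
    have h4 : 2 ≤ y ^ (1 / 2 : ℝ) := by
      have h5 : (4 : ℝ) ^ (1 / 2 : ℝ) ≤ y ^ (1 / 2 : ℝ) :=
        Real.rpow_le_rpow (by norm_num) hy4 (by norm_num)
      have h6 : (4 : ℝ) ^ (1 / 2 : ℝ) = 2 := by
        rw [show (4 : ℝ) = 2 ^ (2 : ℝ) by norm_num, ← Real.rpow_mul (by norm_num)]
        norm_num
      rwa [h6] at h5
    rw [le_div_iff₀ (by positivity)]
    calc y ^ (3 / 2 : ℝ) * 2 ^ κ ≤ y ^ (3 / 2 : ℝ) * y ^ (1 / 2 : ℝ) :=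
          mul_le_mul_of_nonneg_left (h2.trans h4) (by positivity)
      _ = y ^ (2 : ℝ) := by
          rw [← Real.rpow_add hy0]
          norm_num
      _ ≤ _ := h3
  · have h1 : (n : ℝ) ^ (1 / 2 : ℝ) ≤ n / (Real.log n) ^ 2 := by
      rw [le_div_iff₀ (by positivity)]
      calc (n : ℝ) ^ (1 / 2 : ℝ) * (Real.log n) ^ 2 ≤ (n : ℝ) ^ (1 / 2 : ℝ) * (n : ℝ) ^ (1 / 2 : ℝ) :=
            mul_le_mul_of_nonneg_left hl (by positivity)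
        _ = n := by rw [← Real.rpow_add hn0]; norm_num
    have h2 : y ^ 4 ≤ (n : ℝ) ^ (1 / 2 : ℝ) := by
      have h3 : (y ^ 8) ≤ (n : ℝ) := by
        have h4 : y ^ 9 ≤ y ^ C₀ := pow_le_pow_right₀ hy1 (by omega)
        have h5 : y ^ 9 = y ^ 8 * y := by ring
        have h6 : 0 < y ^ 8 := by positivity
        nlinarith
      have h4 : (y ^ 8) ^ (1 / 2 : ℝ) ≤ (n : ℝ) ^ (1 / 2 : ℝ) :=
        Real.rpow_le_rpow (by positivity) h3 (by norm_num)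
      have h5 : (y ^ 8) ^ (1 / 2 : ℝ) = y ^ 4 := by
        rw [← Real.rpow_natCast, ← Real.rpow_natCast, ← Real.rpow_mul hy0.le]
        norm_num
      rwa [h5] at h4
    have h3 : 8 ≤ c * y := by
      rw [div_le_iff₀ hc] at hyc
      linarith
    have h4 : y ^ 4 ≤ (n : ℝ) / (Real.log n) ^ 2 := h2.trans h1
    calc y ^ 3 ≤ 1 / 4 * (c * y ^ 4) := by
          have h5 : 0 < y ^ 3 := by positivity
          have h6 : c * y ^ 4 = (c * y) * y ^ 3 := by ring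
          rw [h6]
          nlinarith
      _ ≤ _ := by
          have := mul_le_mul_of_nonneg_left h4 hc.le
          linarith

/-- few exceptions in `[y, y ^ (3 / 2)]` -/
theorem one_scaleQ (t yy : ℕ → ℕ) (C : ℕ) (hty : ∀ q : ℕ, q.Prime → q % 4 = 1 →
    1 ≤ t q ∧ (t q) ^ 2 + 4 = q * (yy q) ^ 2 ∧ t q + 1 ≤ 2 ^ (C * q ^ 4 + 3)) :
    ∃ (C₀ N : ℕ) (y₀ : ℝ), 4 ≤ y₀ ∧ ∀ y : ℝ, y₀ ≤ y →
    ∀ S : Finset ℕ, (∀ q ∈ S, q.Prime ∧ q % 4 = 1 ∧ y ≤ (q : ℝ) ∧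
      (q : ℝ) ≤ y ^ (1 + 1 / 2 : ℝ) ∧ (Gn t q (q ^ C₀) : ℝ) < (q : ℝ) ^ 2) → S.card ≤ N := by
  classical
  obtain ⟨κ, K, c, hκ, hκ10, hK, hc, h⟩ := mainQ t yy C hty
  obtain ⟨C₀, hC₀⟩ : ∃ C₀ : ℕ, C₀ = ⌈2 / κ⌉₊ := ⟨_, rfl⟩
  have hCκ : 2 ≤ C₀ * κ := by
    have h1 : 2 / κ ≤ C₀ := by rw [hC₀]; exact Nat.le_ceil _
    rwa [div_le_iff₀ hκ] at h1
  obtain ⟨N, x₀, hx₀3, hx₀⟩ := h 1 (1 / 8) (by norm_num)
  obtain ⟨y₀, hy₀4, hy₀⟩ := num_yQ κ c x₀ C₀ hκ hκ10 hc hCκ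
  refine ⟨C₀, N, y₀, hy₀4, fun y hy S hS => ?_⟩
  obtain ⟨a0, a1, a2⟩ := hy₀ y hy
  have hy4 : 4 ≤ y := hy₀4.trans hy
  have hy0 : 0 < y := by linarith
  obtain ⟨x, hx⟩ : ∃ x : ℕ, x = ⌊y ^ C₀⌋₊ := ⟨_, rfl⟩
  rw [← hx] at a0 a1 a2
  obtain ⟨b1, E, b2, b3, b4⟩ := hx₀ x a0
  by_contra hcon
  push Not at hcon
  have hSE : ¬ S ⊆ E := fun hsub => by
    have := card_le_card hsub
    omega
  rw [not_subset] at hSE
  obtain ⟨q, hqS, hqE⟩ := hSE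
  obtain ⟨c1, c0, c2, c3, c4⟩ := hS q hqS
  have e32 : (1 + 1 / 2 : ℝ) = 3 / 2 := by norm_num
  rw [e32] at c3
  obtain ⟨-, h2⟩ := b4 {q} (by rw [card_singleton]) (by
    intro q' hq'
    rw [mem_singleton] at hq'
    rw [hq']
    exact ⟨c1, c0⟩) (by
    rw [prod_singleton]
    exact c3.trans a1) (by
    intro B hB
    rcases subset_singleton_iff.1 hB with rfl | rfl
    · rw [prod_empty]
      intro h1
      have := b3 1 h1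
      omega
    · rw [prod_singleton]
      exact hqE)
  rw [card_singleton, pow_one] at h2
  have h5 : ((GdP x (zz K x) t {q}).card : ℝ) ≤ Gn t q x := by
    exact_mod_cast Gn_ge t q x (zz K x)
  have h6 : (Gn t q x : ℝ) ≤ Gn t q (q ^ C₀) := by
    have : Gn t q x ≤ Gn t q (q ^ C₀) := by
      apply Gn_mono
      rw [hx]
      have h7 : ⌊y ^ C₀⌋₊ ≤ ⌊((q : ℝ)) ^ C₀⌋₊ :=
        Nat.floor_le_floor (pow_le_pow_left₀ hy0.le c2 C₀)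
      have h8 : ⌊((q : ℝ)) ^ C₀⌋₊ = q ^ C₀ := by
        rw [← Nat.cast_pow, Nat.floor_natCast]
      omega
    exact_mod_cast this
  have h7 : (q : ℝ) ^ 2 ≤ y ^ 3 := by
    have hq0 : (0 : ℝ) ≤ q := Nat.cast_nonneg q
    calc (q : ℝ) ^ 2 ≤ (y ^ (3 / 2 : ℝ)) ^ 2 := pow_le_pow_left₀ hq0 c3 2
      _ = y ^ 3 := by
          rw [← Real.rpow_natCast, ← Real.rpow_mul hy0.le, ← Real.rpow_natCast]
          norm_num
  have h8 : (1 / 4 : ℝ) * (c * (x / (Real.log x) ^ 2)) ≤ 1 / 4 * ((Tp x (zz K x)).card : ℝ) :=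
    mul_le_mul_of_nonneg_left b1 (by norm_num)
  linarith

open Classical in
/-- all but few primes have a small prime with a unit of large order -/
theorem main_scaleQ (t yy : ℕ → ℕ) (C : ℕ) (hty : ∀ q : ℕ, q.Prime → q % 4 = 1 →
    1 ≤ t q ∧ (t q) ^ 2 + 4 = q * (yy q) ^ 2 ∧ t q + 1 ≤ 2 ^ (C * q ^ 4 + 3)) :
    ∃ (C₀ : ℕ) (D : ℝ), ∀ N : ℕ, 3 ≤ N →
    (((Icc 1 N).filter (fun q : ℕ => q.Prime ∧ q % 4 = 1 ∧
      (Gn t q (q ^ C₀) : ℝ) < (q : ℝ) ^ 2)).card : ℝ) ≤ D * (1 + Real.log (Real.log N)) := by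
  obtain ⟨C₀, K, y₀, hy₀, h⟩ := one_scaleQ t yy C hty
  obtain ⟨D, hD⟩ := cover (1 / 2) (by norm_num) K y₀ (by linarith)
    (fun q : ℕ => q.Prime ∧ q % 4 = 1 ∧ (Gn t q (q ^ C₀) : ℝ) < (q : ℝ) ^ 2)
    fun y hy S hS => h y hy S fun q hq =>
      ⟨(hS q hq).1.1, (hS q hq).1.2.1, (hS q hq).2.1, (hS q hq).2.2, (hS q hq).1.2.2⟩
  exact ⟨C₀, D, hD⟩

end Pool.Agent.H482.QP
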